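import Pool.Agent.Lib.HilbertFq.ClassCount

/-!
For finitely many polynomials `h_i(T, Y)` over `k[X]`, `k` a finite field, monic of degree at
least two in `Y`, irreducible and separable over `k(X)(T)`, there is `a` in `k[X]` for which no
`h_i(a, Y)` has a root in `k[X]`.
-/

set_option autoImplicit false

namespace HilbertFq

open Finset Polynomial

variable {k : Type*} [Field k] [Finite k] {K : Type*} [Field K] [Algebra k[X] K]
  [IsFractionRing k[X] K]

theorem exists_avoid {ι : Type*} [Finite ι] (h : ι → k[X][X][X]) (hm : ∀ i, (h i).Monic)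
    (hd : ∀ i, 2 ≤ (h i).natDegree)
    (hirr : ∀ i, Irreducible ((h i).map (mapRingHom (algebraMap k[X] K))))
    (hsep : ∀ i, ∃ (A B : k[X][X][X]) (D : k[X][X]), D ≠ 0 ∧
      C D = A * h i + B * derivative (h i))
    (g : k[X][X]) (hg : g ≠ 0) :
    ∃ a : k[X], g.eval a ≠ 0 ∧ ∀ i, ∀ y : k[X], ((h i).map (evalRingHom a)).eval y ≠ 0 := by
  classical
  have hfk : Fintype k := Fintype.ofFinite k
  have hfι : Fintype ι := Fintype.ofFinite ι
  choose A B D hD0 hD using hsep
  have hDt : ∏ i, D i ≠ 0 := Finset.prod_ne_zero_iff.mpr fun i _ => hD0 i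
  obtain ⟨a₀, ha₀⟩ : ∃ a₀ : k[X], (∏ i, D i).eval a₀ ≠ 0 := by
    by_contra hcon
    push Not at hcon
    exact hDt (Polynomial.funext fun r => by rw [hcon r, eval_zero])
  set u := (∏ i, D i).eval a₀ with hu
  set Q : k[X] := 1 + X * u with hQdef
  have hQdeg : 1 ≤ Q.natDegree := by
    have h1 : (X * u).natDegree = u.natDegree + 1 := natDegree_X_mul ha₀
    rw [hQdef, natDegree_add_eq_right_of_natDegree_lt, h1]
    · omega
    · rw [h1, natDegree_one]
      omega
  have hcop : IsCoprime u Q := ⟨-X, 1, by rw [hQdef]; ring⟩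
  have hcopi : ∀ i, IsCoprime ((D i).eval a₀) Q := by
    intro i
    refine IsCoprime.of_isCoprime_of_dvd_left hcop ?_
    rw [hu, eval_prod]
    exact Finset.dvd_prod_of_mem _ (mem_univ i)
  choose ρ hρ using fun i => class_count (K := K) (h i) (hm i) (hd i) (hirr i) (A i) (B i) (D i)
    (hD i) Q hQdeg a₀ (hcopi i)
  by_contra hcon
  push Not at hcon
  set δ := Q.natDegree with hδ
  set q := Fintype.card k with hq
  have hq2 : 2 ≤ q := Fintype.one_lt_card
  set Rt := ∑ i, ρ i with hRt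
  obtain ⟨E, hE⟩ : ∃ E, E = 2 + g.natDegree + Rt + a₀.natDegree + 1 := ⟨_, rfl⟩
  have hQ0 : Q ≠ 0 := by
    intro h0
    rw [h0, natDegree_zero] at hδ
    omega
  have hEδ : E ≤ E * δ := Nat.le_mul_of_pos_right _ hQdeg
  set M := 4 * E * δ - δ with hM
  have hδE : δ ≤ E * δ := Nat.le_mul_of_pos_left _ (by omega)
  have h4 : 4 * E * δ = 4 * (E * δ) := by ring
  have h3 : 3 * E * δ = 3 * (E * δ) := by ring
  let TE : Finset k[X] := (Pn k M).image fun b => a₀ + Q * b
  have hTE : TE.card = q ^ M := by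
    rw [Finset.card_image_of_injective, card_Pn]
    intro b b' hbb
    simpa [hQ0] using hbb
  have hTEdeg : ∀ a ∈ TE, a.natDegree ≤ 4 * E * δ := by
    intro a ha
    obtain ⟨b, hb, rfl⟩ := mem_image.mp ha
    refine (natDegree_add_le _ _).trans (max_le (by omega) ?_)
    refine natDegree_mul_le.trans ?_
    have h1 : b.natDegree ≤ M := by
      rw [mem_Pn] at hb
      exact natDegree_le_of_degree_le hb.le
    omega
  have hTEdvd : ∀ a ∈ TE, Q ∣ a - a₀ := by
    intro a ha
    obtain ⟨b, hb, rfl⟩ := mem_image.mp ha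
    exact ⟨b, by ring⟩
  let F : ι → Finset k[X] := fun i => TE.filter fun a => ∃ y, ((h i).map (evalRingHom a)).eval y = 0
  have hF : ∀ i, (F i).card ≤ ρ i * q ^ (3 * E * δ + δ) := by
    intro i
    refine hρ i E (by omega) (F i) fun a ha => ?_
    rw [mem_filter] at ha
    exact ⟨hTEdeg a ha.1, hTEdvd a ha.1, ha.2⟩
  have hsub : TE ⊆ g.roots.toFinset ∪ univ.biUnion F := by
    intro a ha
    rw [mem_union, Multiset.mem_toFinset, mem_roots hg, mem_biUnion]
    by_cases hga : g.eval a = 0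
    · exact Or.inl hga
    · obtain ⟨i, y, hy⟩ := hcon a hga
      exact Or.inr ⟨i, mem_univ i, mem_filter.mpr ⟨ha, y, hy⟩⟩
  have hle : q ^ M ≤ g.natDegree + Rt * q ^ (3 * E * δ + δ) := by
    rw [← hTE]
    refine (Finset.card_le_card hsub).trans ((Finset.card_union_le _ _).trans ?_)
    refine Nat.add_le_add ((Multiset.toFinset_card_le _).trans (card_roots' g)) ?_
    refine Finset.card_biUnion_le.trans ?_
    rw [hRt, Finset.sum_mul]
    exact Finset.sum_le_sum fun i _ => hF i
  have hMeq : M = (E * δ - 2 * δ) + (3 * E * δ + δ) := by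
    have h5 : 2 * δ ≤ E * δ := Nat.mul_le_mul_right δ (by omega)
    omega
  have hbig : g.natDegree + Rt < q ^ (E * δ - 2 * δ) := by
    have h5 : E - 2 ≤ E * δ - 2 * δ := by
      rw [← Nat.sub_mul]
      exact Nat.le_mul_of_pos_right _ hQdeg
    calc g.natDegree + Rt < E - 2 := by omega
      _ < 2 ^ (E - 2) := Nat.lt_two_pow_self
      _ ≤ q ^ (E - 2) := Nat.pow_le_pow_left hq2 _
      _ ≤ q ^ (E * δ - 2 * δ) := Nat.pow_le_pow_right (by omega) h5
  have hpos : 1 ≤ q ^ (3 * E * δ + δ) := Nat.one_le_pow _ _ (by omega)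
  have hfin : g.natDegree + Rt * q ^ (3 * E * δ + δ) < q ^ M := by
    calc g.natDegree + Rt * q ^ (3 * E * δ + δ)
        ≤ g.natDegree * q ^ (3 * E * δ + δ) + Rt * q ^ (3 * E * δ + δ) :=
          Nat.add_le_add_right (Nat.le_mul_of_pos_right _ hpos) _
      _ = (g.natDegree + Rt) * q ^ (3 * E * δ + δ) := by ring
      _ < q ^ (E * δ - 2 * δ) * q ^ (3 * E * δ + δ) := Nat.mul_lt_mul_of_pos_right hbig hpos
      _ = q ^ M := by rw [← pow_add, ← hMeq]
  omega

end HilbertFq
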