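import Mathlib

/-!
Counting the `a` in a residue class for which `h(a, Y)` has a root.
-/

set_option autoImplicit false

namespace HilbertFq

open Finset Polynomial

section degrees

variable {k : Type*} [Field k]

theorem natDegree_eval_le (p : k[X][X]) :
    ∃ c : ℕ, ∀ (N : ℕ) (a : k[X]), 1 ≤ N → a.natDegree ≤ N → (p.eval a).natDegree ≤ c * N := by
  refine ⟨(∑ i ∈ range (p.natDegree + 1), (p.coeff i).natDegree) + p.natDegree, ?_⟩
  intro N a hN ha
  rw [eval_eq_sum_range]
  apply natDegree_sum_le_of_forall_le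
  intro i hi
  refine natDegree_mul_le.trans ?_
  have h1 : (p.coeff i).natDegree ≤ ∑ i ∈ range (p.natDegree + 1), (p.coeff i).natDegree :=
    Finset.single_le_sum (f := fun i => (p.coeff i).natDegree) (fun _ _ => Nat.zero_le _) hi
  have h2 : (a ^ i).natDegree ≤ i * N := natDegree_pow_le.trans (Nat.mul_le_mul_left i ha)
  have h3 : i ≤ p.natDegree := by
    rw [mem_range] at hi
    omega
  have h4 : i * N ≤ p.natDegree * N := Nat.mul_le_mul_right N h3
  have h5 : (∑ i ∈ range (p.natDegree + 1), (p.coeff i).natDegree) ≤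
      (∑ i ∈ range (p.natDegree + 1), (p.coeff i).natDegree) * N := Nat.le_mul_of_pos_right _ hN
  rw [add_mul]
  omega

theorem natDegree_root_le (h : k[X][X][X]) (hm : h.Monic) (hd : 1 ≤ h.natDegree) :
    ∃ c : ℕ, 1 ≤ c ∧ ∀ (N : ℕ) (a y : k[X]), 1 ≤ N → a.natDegree ≤ N →
      (h.map (evalRingHom a)).eval y = 0 → y.natDegree ≤ c * N := by
  choose c hc using fun j : ℕ => natDegree_eval_le (h.coeff j)
  refine ⟨(∑ j ∈ range h.natDegree, c j) + 1, Nat.le_add_left _ _, ?_⟩
  intro N a y hN ha hy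
  set m := y.natDegree with hmdef
  have h1 : y ^ h.natDegree = - ∑ j ∈ range h.natDegree, (h.coeff j).eval a * y ^ j := by
    have h2 := hy
    rw [eval_eq_sum_range, hm.natDegree_map, sum_range_succ] at h2
    simp only [coeff_map, coe_evalRingHom, hm.coeff_natDegree, eval_one, one_mul] at h2
    linear_combination h2
  have h2 : (y ^ h.natDegree).natDegree = h.natDegree * m := natDegree_pow _ _
  have h3 : (∑ j ∈ range h.natDegree, (h.coeff j).eval a * y ^ j).natDegree ≤
      ((∑ j ∈ range h.natDegree, c j) + 1) * N + (h.natDegree - 1) * m := by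
    apply natDegree_sum_le_of_forall_le
    intro j hj
    refine natDegree_mul_le.trans ?_
    have h4 := hc j N a hN ha
    have h5 : (y ^ j).natDegree ≤ (h.natDegree - 1) * m := by
      refine natDegree_pow_le.trans (Nat.mul_le_mul_right m ?_)
      rw [mem_range] at hj
      omega
    have h6 : c j ≤ ∑ j ∈ range h.natDegree, c j :=
      Finset.single_le_sum (fun _ _ => Nat.zero_le _) hj
    have h7 : c j * N ≤ ((∑ j ∈ range h.natDegree, c j) + 1) * N :=
      Nat.mul_le_mul_right N (by omega)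
    omega
  have h4 : h.natDegree * m ≤ ((∑ j ∈ range h.natDegree, c j) + 1) * N +
      (h.natDegree - 1) * m := by
    rw [← h2, h1, natDegree_neg]
    exact h3
  obtain ⟨d, hd'⟩ : ∃ d, h.natDegree = d + 1 := ⟨h.natDegree - 1, by omega⟩
  rw [hd'] at h4 ⊢
  rw [Nat.add_sub_cancel, add_mul, one_mul] at h4
  omega

end degrees

section numerics

theorem sum_fin_mul_two (n : ℕ) : 2 * ∑ i : Fin (n + 1), (i : ℕ) = n * (n + 1) := by
  rw [Fin.sum_univ_eq_sum_range (fun i => i) (n + 1), mul_comm, Finset.sum_range_id_mul_two]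
  rw [Nat.add_sub_cancel, mul_comm]

theorem weights_sum (I d' c N : ℕ) :
    2 * ∑ j : Fin (I + 1) × Fin (d' + 1), ((j.1 : ℕ) * N + (j.2 : ℕ) * (c * N)) =
      (d' + 1) * (I + 1) * ((I + c * d') * N) := by
  rw [Fintype.sum_prod_type]
  simp only [Finset.sum_add_distrib, Finset.sum_const, Finset.card_univ, Fintype.card_fin,
    smul_eq_mul]
  rw [← Finset.mul_sum, ← Finset.sum_mul, ← Finset.sum_mul]
  have h1 := sum_fin_mul_two I
  have h2 := sum_fin_mul_two d'
  generalize (∑ i : Fin (I + 1), (i : ℕ)) = a at *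
  generalize (∑ i : Fin (d' + 1), (i : ℕ)) = b at *
  calc 2 * ((d' + 1) * (a * N) + (I + 1) * (b * (c * N)))
      = (d' + 1) * ((2 * a) * N) + (I + 1) * ((2 * b) * (c * N)) := by ring
    _ = _ := by rw [h1, h2]; ring

theorem numeric (d' c E δ : ℕ) (hd : 1 ≤ d') (hc : 1 ≤ c) (hE : 1 ≤ E) (hδ : 1 ≤ δ) :
    ∑ j : Fin (4 * c * (d' + 1) + 1) × Fin (d' + 1),
      ((j.1 : ℕ) * (4 * E * δ) + (j.2 : ℕ) * (c * (4 * E * δ))) <
    (∑ i ∈ range (Fintype.card (Fin (4 * c * (d' + 1) + 1) × Fin (d' + 1))), i) *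
      (3 * E * δ) := by
  have h1 := weights_sum (4 * c * (d' + 1)) d' c (4 * E * δ)
  have h2 : (∑ i ∈ range (Fintype.card (Fin (4 * c * (d' + 1) + 1) × Fin (d' + 1))), i) * 2 =
      (4 * c * (d' + 1) + 1) * (d' + 1) * ((4 * c * (d' + 1) + 1) * (d' + 1) - 1) := by
    rw [Finset.sum_range_id_mul_two, Fintype.card_prod, Fintype.card_fin, Fintype.card_fin]
  generalize (∑ j : Fin (4 * c * (d' + 1) + 1) × Fin (d' + 1),
      ((j.1 : ℕ) * (4 * E * δ) + (j.2 : ℕ) * (c * (4 * E * δ)))) = A at *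
  generalize (∑ i ∈ range (Fintype.card (Fin (4 * c * (d' + 1) + 1) × Fin (d' + 1))), i) = B at *
  have h3 : (4 * c * (d' + 1) + 1) * (d' + 1) - 1 = 4 * c * (d' + 1) * (d' + 1) + d' := by
    have : (4 * c * (d' + 1) + 1) * (d' + 1) = 4 * c * (d' + 1) * (d' + 1) + d' + 1 := by ring
    omega
  rw [h3] at h2
  have h4 : (4 * c * (d' + 1) + c * d') * (4 * E * δ) <
      (4 * c * (d' + 1) * (d' + 1) + d') * (3 * E * δ) := by
    have h5 : (4 * c * (d' + 1) + c * d') * 4 < (4 * c * (d' + 1) * (d' + 1) + d') * 3 := by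
      nlinarith [mul_pos (show 0 < c by omega) (show 0 < d' by omega)]
    have h6 : 0 < E * δ := Nat.mul_pos hE hδ
    calc (4 * c * (d' + 1) + c * d') * (4 * E * δ)
        = ((4 * c * (d' + 1) + c * d') * 4) * (E * δ) := by ring
      _ < ((4 * c * (d' + 1) * (d' + 1) + d') * 3) * (E * δ) := Nat.mul_lt_mul_of_pos_right h5 h6
      _ = _ := by ring
  have h5 : 0 < (d' + 1) * (4 * c * (d' + 1) + 1) := Nat.mul_pos (by omega) (by omega)
  have h6 := Nat.mul_lt_mul_of_pos_left h4 h5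
  have h7 : 2 * A < 2 * (B * (3 * E * δ)) := by
    rw [h1]
    calc _ < _ := h6
      _ = (B * 2) * (3 * E * δ) := by rw [h2]; ring
      _ = _ := by ring
  omega

end numerics

end HilbertFq
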