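import Mathlib

/-!
Newton approximation in a commutative ring, and approximation of the points of
`h(a, y) = 0` in a residue class by the values of a polynomial.
-/

set_option autoImplicit false

namespace HilbertFq

open Finset Polynomial

/-- Newton approximation. -/
theorem newton {S : Type*} [CommRing S] (J : Ideal S) (H : S[X]) (φ₁ u : S)
    (h0 : H.eval φ₁ ∈ J) (hu : 1 - u * H.derivative.eval φ₁ ∈ J) (m : ℕ) :
    ∃ φ : S, φ - φ₁ ∈ J ∧ H.eval φ ∈ J ^ (m + 1) := by
  induction m with
  | zero => exact ⟨φ₁, by simp, by simpa using h0⟩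
  | succ m ih =>
    obtain ⟨φ, h1, h2⟩ := ih
    have h2J : H.eval φ ∈ J := (Ideal.pow_le_self (Nat.succ_ne_zero m)) h2
    refine ⟨φ - u * H.eval φ, ?_, ?_⟩
    · have h3 : φ - u * H.eval φ - φ₁ = (φ - φ₁) - u * H.eval φ := by ring
      rw [h3]
      exact J.sub_mem h1 (J.mul_mem_left _ h2J)
    · obtain ⟨k, hk⟩ := Polynomial.binomExpansion H φ (-(u * H.eval φ))
      have h3 : φ - u * H.eval φ = φ + -(u * H.eval φ) := by ring
      rw [h3, hk]
      have h4 : H.eval φ + H.derivative.eval φ * -(u * H.eval φ) + k * (-(u * H.eval φ)) ^ 2 =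
          (H.eval φ) * (1 - u * H.derivative.eval φ) + (H.eval φ) * (k * u ^ 2 * H.eval φ) := by
        ring
      rw [h4, pow_succ (J) (m + 1)]
      refine Ideal.add_mem _ (Ideal.mul_mem_mul h2 ?_) (Ideal.mul_mem_mul h2 ?_)
      · -- derivative at `φ` agrees with derivative at `φ₁`
        have h5 : H.derivative.eval φ - H.derivative.eval φ₁ ∈ J := by
          have h6 : φ - φ₁ ∣ H.derivative.eval φ - H.derivative.eval φ₁ := sub_dvd_eval_sub _ _ _
          exact Ideal.mem_of_dvd _ h6 h1
        have h7 : 1 - u * H.derivative.eval φ = (1 - u * H.derivative.eval φ₁) -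
            u * (H.derivative.eval φ - H.derivative.eval φ₁) := by ring
        rw [h7]
        exact J.sub_mem hu (J.mul_mem_left _ h5)
      · exact J.mul_mem_left _ h2J

/-- Uniqueness of Newton approximation. -/
theorem newton_unique {R : Type*} [CommRing R] (Q : R) (H : R[X]) (y y' : R)
    (hy : Q ∣ y - y') (hc : IsCoprime (H.derivative.eval y') Q) (e : ℕ)
    (hH : Q ^ e ∣ H.eval y - H.eval y') : Q ^ e ∣ y - y' := by
  obtain ⟨k, hk⟩ := Polynomial.binomExpansion H y' (y - y')
  have h1 : H.eval y - H.eval y' = (y - y') * (H.derivative.eval y' + k * (y - y')) := by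
    have h2 : y' + (y - y') = y := by ring
    rw [h2] at hk
    rw [hk]
    ring
  rw [h1] at hH
  obtain ⟨c, hcc⟩ := hy
  have h3 : IsCoprime (H.derivative.eval y' + k * (y - y')) Q := by
    rw [hcc, show k * (Q * c) = Q * (k * c) by ring]
    exact IsCoprime.add_mul_left_left hc _
  exact (h3.symm.pow_left (m := e)).dvd_of_dvd_mul_right hH

/-- Approximation of the points of a residue class. -/
theorem exists_approx {R : Type*} [CommRing R] (h : R[X][X]) (a₁ y₁ Q : R) (e : ℕ)
    (he : e ≠ 0)
    (h1 : (h.map (evalRingHom a₁)).eval y₁ = 0)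
    (hc : IsCoprime ((h.map (evalRingHom a₁)).derivative.eval y₁) Q) (m : ℕ) :
    ∃ φ : R[X], ∀ a y : R, (h.map (evalRingHom a)).eval y = 0 → Q ^ e ∣ a - a₁ → Q ∣ y - y₁ →
      Q ^ (e * (m + 1)) ∣ y - φ.eval (a - a₁) := by
  set P := Q ^ e with hP
  let J : Ideal R[X] := Ideal.span {C P, X}
  let H : R[X][X] := h.map (compRingHom (C a₁ + X))
  have hcP : IsCoprime ((h.map (evalRingHom a₁)).derivative.eval y₁) P := hc.pow_right
  obtain ⟨u, v, huv⟩ := hcP
  have hXJ : (X : R[X]) ∈ J := Ideal.subset_span (by simp)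
  have hPJ : (C P : R[X]) ∈ J := Ideal.subset_span (by simp)
  have hmod : ∀ p : R[X], p - C (p.eval 0) ∈ J := by
    intro p
    have h2 : X - C (0 : R) ∣ p - C (p.eval 0) := X_sub_C_dvd_sub_C_eval
    rw [C_0, sub_zero] at h2
    exact Ideal.mem_of_dvd _ h2 hXJ
  have hcomp : ∀ z : R, (evalRingHom z).comp (compRingHom (C a₁ + X)) =
      evalRingHom (a₁ + z) := by
    intro z
    ext x <;> simp
  have heval : ∀ (z : R) (G : R[X][X]) (φ : R[X]),
      ((G.map (compRingHom (C a₁ + X))).eval φ).eval z =
        (G.map (evalRingHom (a₁ + z))).eval (φ.eval z) := by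
    intro z G φ
    rw [← hcomp z, ← Polynomial.map_map]
    change evalRingHom z (eval φ _) = _
    rw [← Polynomial.eval₂_at_apply, Polynomial.eval₂_eq_eval_map]
    rfl
  obtain ⟨φ, hφ1, hφ2⟩ := newton J H (C y₁) (C u) (by
      have h2 := hmod (H.eval (C y₁))
      have h3 : (H.eval (C y₁)).eval 0 = 0 := by
        rw [heval 0 h (C y₁), add_zero, eval_C, h1]
      rw [h3, C_0, sub_zero] at h2
      exact h2) (by
      have h2 := hmod (H.derivative.eval (C y₁))
      have h3 : (H.derivative.eval (C y₁)).eval 0 =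
          (h.map (evalRingHom a₁)).derivative.eval y₁ := by
        rw [derivative_map, heval 0 _ (C y₁), add_zero, eval_C, derivative_map]
      rw [h3] at h2
      set d := (h.map (evalRingHom a₁)).derivative.eval y₁ with hd
      have h4 : (1 : R[X]) - C u * H.derivative.eval (C y₁) = C v * C P -
          C u * (H.derivative.eval (C y₁) - C d) := by
        have h5 : (1 : R[X]) = C u * C d + C v * C P := by
          rw [← C_mul, ← C_mul, ← C_add, huv, C_1]
        rw [h5]
        ring
      rw [h4]
      exact J.sub_mem (J.mul_mem_left _ hPJ) (J.mul_mem_left _ h2)) m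
  refine ⟨φ, fun a y hay haP hyQ => ?_⟩
  set z := a - a₁ with hz
  have haz : a₁ + z = a := by rw [hz]; ring
  have hJz : J.map (evalRingHom z) ≤ Ideal.span {P} := by
    rw [Ideal.map_span, Ideal.span_le]
    rintro _ ⟨x, hx, rfl⟩
    rcases hx with hx | hx
    · rw [hx]
      change eval z (C P) ∈ _
      rw [eval_C]
      exact Ideal.mem_span_singleton_self P
    · rw [Set.mem_singleton_iff.mp hx]
      change eval z X ∈ _
      rw [eval_X]
      exact Ideal.mem_span_singleton.mpr haP
  have hJm : ∀ p : R[X], p ∈ J ^ (m + 1) → P ^ (m + 1) ∣ p.eval z := by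
    intro p hp
    have h2 : evalRingHom z p ∈ (J ^ (m + 1)).map (evalRingHom z) := Ideal.mem_map_of_mem _ hp
    rw [Ideal.map_pow] at h2
    have h3 := Ideal.pow_right_mono hJz (m + 1) h2
    rw [Ideal.span_singleton_pow, Ideal.mem_span_singleton] at h3
    exact h3
  have hJ1 : P ∣ φ.eval z - y₁ := by
    have h2 : evalRingHom z (φ - C y₁) ∈ J.map (evalRingHom z) := Ideal.mem_map_of_mem _ hφ1
    have h3 := hJz h2
    rw [Ideal.mem_span_singleton] at h3
    simpa using h3
  have hQP : Q ∣ P := dvd_pow_self Q he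
  have h2 : P ^ (m + 1) ∣ (h.map (evalRingHom a)).eval (φ.eval z) := by
    have h3 := hJm _ hφ2
    rw [heval z h φ, haz] at h3
    exact h3
  have h3 : Q ∣ y - φ.eval z := by
    have h4 : y - φ.eval z = (y - y₁) - (φ.eval z - y₁) := by ring
    rw [h4]
    exact dvd_sub hyQ (hQP.trans hJ1)
  have h4 : IsCoprime ((h.map (evalRingHom a)).derivative.eval (φ.eval z)) Q := by
    -- congruent modulo `Q` to the derivative at `(a₁, y₁)`
    have h5 : Q ∣ (h.map (evalRingHom a)).derivative.eval (φ.eval z) -
        (h.map (evalRingHom a₁)).derivative.eval y₁ := by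
      have h6 : φ.eval z - y₁ ∣ (h.map (evalRingHom a)).derivative.eval (φ.eval z) -
          (h.map (evalRingHom a)).derivative.eval y₁ := sub_dvd_eval_sub _ _ _
      have h7 : a - a₁ ∣ (h.map (evalRingHom a)).derivative.eval y₁ -
          (h.map (evalRingHom a₁)).derivative.eval y₁ := by
        have h8 : ∀ b : R, (h.map (evalRingHom b)).derivative.eval y₁ =
            (h.derivative.eval (C y₁)).eval b := by
          intro b
          rw [derivative_map]
          change _ = evalRingHom b (eval _ _)
          rw [← Polynomial.eval₂_at_apply, Polynomial.eval₂_eq_eval_map]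
          change _ = eval (eval b (C y₁)) _
          rw [eval_C]
        rw [h8, h8]
        exact sub_dvd_eval_sub _ _ _
      have h9 := dvd_add ((hQP.trans hJ1).trans h6) ((hQP.trans haP).trans h7)
      rwa [sub_add_sub_cancel] at h9
    obtain ⟨c, hcc⟩ := h5
    have h6 : (h.map (evalRingHom a)).derivative.eval (φ.eval z) =
        (h.map (evalRingHom a₁)).derivative.eval y₁ + Q * c := by
      rw [← hcc]
      ring
    rw [h6]
    exact IsCoprime.add_mul_left_left hc _
  refine newton_unique Q (h.map (evalRingHom a)) y (φ.eval z) h3 h4 (e * (m + 1)) ?_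
  rw [hay, zero_sub, dvd_neg, pow_mul]
  exact h2

end HilbertFq
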