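import Mathlib

/-!
* If all `s × s` determinants made of vectors of a set `V ⊆ K^s` vanish, then `V` is annihilated
  by a nonzero functional.
* For `H(T, Y)` monic and irreducible of degree `d` in `Y` over a field `K`, the number of `a` for
  which some `y` satisfies `H(a, y) = 0 = g(a, y)` is bounded uniformly in the nonzero
  polynomial `g = ∑ w_ij T^i Y^j`, `i ≤ I`, `j < d`.
-/

set_option autoImplicit false

namespace HilbertFq

open Finset Polynomial

theorem exists_functional {K : Type*} [Field K] {ι : Type*} [Fintype ι] [DecidableEq ι]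
    (V : Set (ι → K)) (hV : ∀ p : ι → (ι → K), (∀ l, p l ∈ V) → (Matrix.of p).det = 0) :
    ∃ w : ι → K, w ≠ 0 ∧ ∀ v ∈ V, ∑ j, w j * v j = 0 := by
  classical
  by_cases hspan : Submodule.span K V = ⊤
  · exfalso
    obtain ⟨b, hbV, hbs, hbl⟩ := exists_linearIndependent K V
    have hbs' : Submodule.span K (Set.range (Subtype.val : b → (ι → K))) = ⊤ := by
      rw [Subtype.range_coe, hbs, hspan]
    let B : Module.Basis b K (ι → K) := Module.Basis.mk hbl hbs'.ge
    have hfin : Finite b := hbl.finite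
    have hft : Fintype b := Fintype.ofFinite b
    have hcard : Fintype.card b = Fintype.card ι := by
      rw [← Module.finrank_eq_card_basis B, Module.finrank_fintype_fun_eq_card]
    let e : ι ≃ b := Fintype.equivOfCardEq hcard.symm
    have h1 : LinearIndependent K (fun l : ι => ((e l : b) : ι → K)) :=
      hbl.comp e e.injective
    have h2 : IsUnit (Matrix.of (fun l : ι => ((e l : b) : ι → K))) := by
      rw [← Matrix.linearIndependent_rows_iff_isUnit]
      exact h1
    rw [Matrix.isUnit_iff_isUnit_det] at h2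
    rw [hV _ (fun l => hbV (e l).2)] at h2
    exact not_isUnit_zero h2
  · obtain ⟨f, hf0, hf⟩ := Submodule.exists_le_ker_of_lt_top (Submodule.span K V)
      (lt_top_iff_ne_top.mpr hspan)
    have h1 : ∀ v : ι → K, f v = ∑ j, f (Pi.single j 1) * v j := by
      intro v
      have h2 : v = ∑ j, v j • (Pi.single j (1 : K) : ι → K) := by
        funext i
        simp [Finset.sum_apply, Pi.single_apply]
      conv_lhs => rw [h2]
      rw [map_sum]
      refine Finset.sum_congr rfl fun j _ => ?_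
      rw [map_smul, smul_eq_mul, mul_comm]
    refine ⟨fun j => f (Pi.single j 1), ?_, fun v hv => ?_⟩
    · intro h0
      apply hf0
      ext v
      have h3 : ∀ j, f (Pi.single j 1) = 0 := fun j => congrFun h0 j
      simp [h3]
    · rw [← h1 v]
      exact LinearMap.mem_ker.mp (hf (Submodule.subset_span hv))

theorem natDegree_det_le_sum {K : Type*} [CommRing K] {ι : Type*} [Fintype ι] [DecidableEq ι]
    (M : Matrix ι ι K[X]) (w : ι → ℕ) (h : ∀ l j, (M l j).natDegree ≤ w j) :
    M.det.natDegree ≤ ∑ j, w j := by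
  rw [Matrix.det_apply]
  apply natDegree_sum_le_of_forall_le
  intro σ _
  refine (natDegree_smul_le _ _).trans ?_
  refine (natDegree_prod_le _ _).trans ?_
  exact Finset.sum_le_sum fun j _ => h _ _

theorem norm_bound_aux {K : Type*} [Field K] {B : Type*} [CommRing B] [IsDomain B]
    [Algebra K[X] B] {d : ℕ} (b : Module.Basis (Fin d) K[X] B) (y₀ : B)
    (hb : ∀ i : Fin d, b i = y₀ ^ (i : ℕ)) (I : ℕ) :
    ∃ ρ : ℕ, ∀ w : Fin (I + 1) × Fin d → K, w ≠ 0 → ∀ F : Finset K,
      (∀ a ∈ F, ∃ θ : B →+* K, (∀ p : K[X], θ (algebraMap K[X] B p) = p.eval a) ∧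
        ∑ j, w j * (a ^ (j.1 : ℕ) * θ y₀ ^ (j.2 : ℕ)) = 0) → F.card ≤ ρ := by
  classical
  obtain ⟨mon, hmon⟩ : ∃ mon : Fin (I + 1) × Fin d → B, ∀ j, mon j =
    algebraMap K[X] B (X ^ (j.1 : ℕ)) * y₀ ^ (j.2 : ℕ) := ⟨_, fun _ => rfl⟩
  obtain ⟨Bd, hBd⟩ : ∃ Bd : ℕ, ∀ j u v,
      (Algebra.leftMulMatrix b (mon j) u v).natDegree ≤ Bd := by
    refine ⟨∑ j, ∑ u, ∑ v, (Algebra.leftMulMatrix b (mon j) u v).natDegree, fun j u v => ?_⟩
    refine le_trans ?_ (Finset.single_le_sum (fun _ _ => Nat.zero_le _) (mem_univ j))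
    refine le_trans ?_ (Finset.single_le_sum (fun _ _ => Nat.zero_le _) (mem_univ u))
    exact Finset.single_le_sum
      (f := fun v => (Algebra.leftMulMatrix b (mon j) u v).natDegree)
      (fun _ _ => Nat.zero_le _) (mem_univ v)
  refine ⟨∑ _j : Fin d, Bd, fun w hw F hF => ?_⟩
  obtain ⟨g, hg⟩ : ∃ g : B, g = ∑ j, (algebraMap K[X] B (C (w j))) * mon j := ⟨_, rfl⟩
  have hLMg : ∀ u v, Algebra.leftMulMatrix b g u v =
      ∑ j, C (w j) * Algebra.leftMulMatrix b (mon j) u v := by
    intro u v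
    have h1 : Algebra.leftMulMatrix b g = ∑ j, (C (w j)) • Algebra.leftMulMatrix b (mon j) := by
      rw [hg, map_sum]
      refine Finset.sum_congr rfl fun j _ => ?_
      rw [← Algebra.smul_def, map_smul]
    rw [h1, Matrix.sum_apply]
    refine Finset.sum_congr rfl fun j _ => ?_
    rw [Matrix.smul_apply, smul_eq_mul]
  have hg0 : g ≠ 0 := by
    intro hg'
    apply hw
    obtain ⟨W, hW⟩ : ∃ W : Fin d → K[X], ∀ v, W v = ∑ i : Fin (I + 1),
      C (w (i, v)) * X ^ (i : ℕ) := ⟨_, fun _ => rfl⟩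
    have h1 : g = ∑ v, W v • b v := by
      rw [hg, Fintype.sum_prod_type_right]
      refine Finset.sum_congr rfl fun v _ => ?_
      rw [hb, Algebra.smul_def, hW, map_sum, Finset.sum_mul]
      refine Finset.sum_congr rfl fun i _ => ?_
      rw [hmon, map_mul, mul_assoc]
    have h2 : ∀ v, W v = 0 :=
      Fintype.linearIndependent_iff.mp b.linearIndependent W (by rw [← h1, hg'])
    funext ⟨i, v⟩
    have h4 := congrArg (fun p : K[X] => p.coeff (i : ℕ)) (h2 v)
    simp only [hW, finsetSum_coeff, coeff_C_mul, coeff_X_pow, coeff_zero] at h4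
    rw [Finset.sum_eq_single i] at h4
    · simpa using h4
    · intro b' _ hb'
      rw [if_neg, mul_zero]
      intro h5
      exact hb' (Fin.ext h5.symm)
    · intro h5
      exact absurd (mem_univ i) h5
  obtain ⟨r, hr⟩ : ∃ r : K[X], r = Algebra.norm K[X] g := ⟨_, rfl⟩
  have hr0 : r ≠ 0 := by
    intro h
    rw [hr] at h
    exact hg0 ((Algebra.norm_eq_zero_iff_of_basis b).mp h)
  have hrdet : r = (Algebra.leftMulMatrix b g).det := by
    rw [hr]
    exact Algebra.norm_eq_matrix_det b g
  have hrdeg : r.natDegree ≤ ∑ _j : Fin d, Bd := by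
    rw [hrdet]
    apply natDegree_det_le_sum
    intro u v
    rw [hLMg]
    apply natDegree_sum_le_of_forall_le
    intro j _
    exact (natDegree_C_mul_le _ _).trans (hBd j u v)
  have hroot : ∀ a ∈ F, r.IsRoot a := by
    intro a ha
    obtain ⟨θ, hθ1, hgy⟩ := hF a ha
    have hθg : θ g = 0 := by
      rw [hg, map_sum, ← hgy]
      refine Finset.sum_congr rfl fun j _ => ?_
      rw [map_mul, hmon, map_mul, hθ1, hθ1, map_pow, eval_C, eval_pow, eval_X]
    have h1 : r.eval a = ((Algebra.leftMulMatrix b g).map (evalRingHom a)).det := by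
      rw [hrdet]
      change evalRingHom a _ = _
      rw [RingHom.map_det]
      rfl
    change r.eval a = 0
    rw [h1, ← Matrix.exists_vecMul_eq_zero_iff]
    refine ⟨fun i => θ (b i), ?_, ?_⟩
    · intro h0
      have h2 : ∀ i, θ (b i) = 0 := fun i => congrFun h0 i
      have h3 : θ 1 = 0 := by
        rw [← b.sum_repr 1, map_sum]
        refine Finset.sum_eq_zero fun i _ => ?_
        rw [Algebra.smul_def, map_mul, h2, mul_zero]
      rw [map_one] at h3
      exact one_ne_zero h3
    · funext j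
      have h2 : ∑ i, (Algebra.leftMulMatrix b g i j) • b i = g * b j := by
        rw [← b.sum_repr (g * b j)]
        refine Finset.sum_congr rfl fun i _ => ?_
        rw [Algebra.leftMulMatrix_eq_repr_mul]
      have h3 := congrArg θ h2
      rw [map_mul, hθg, zero_mul, map_sum] at h3
      rw [Matrix.vecMul, dotProduct, Pi.zero_apply, ← h3]
      refine Finset.sum_congr rfl fun i _ => ?_
      rw [Algebra.smul_def, map_mul, hθ1, mul_comm, Matrix.map_apply]
      rfl
  have hsub : F ⊆ r.roots.toFinset := by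
    intro a ha
    rw [Multiset.mem_toFinset, mem_roots hr0]
    exact hroot a ha
  calc F.card ≤ r.roots.toFinset.card := Finset.card_le_card hsub
    _ ≤ Multiset.card r.roots := Multiset.toFinset_card_le _
    _ ≤ r.natDegree := card_roots' r
    _ ≤ _ := hrdeg

theorem norm_bound {K : Type*} [Field K] (H : K[X][X]) (hm : H.Monic) (hirr : Irreducible H)
    (I : ℕ) :
    ∃ ρ : ℕ, ∀ w : Fin (I + 1) × Fin H.natDegree → K, w ≠ 0 → ∀ F : Finset K,
      (∀ a ∈ F, ∃ y : K, (H.map (evalRingHom a)).eval y = 0 ∧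
        ∑ j, w j * (a ^ (j.1 : ℕ) * y ^ (j.2 : ℕ)) = 0) → F.card ≤ ρ := by
  have hprime : Prime H := hirr.prime
  have hdom : IsDomain (AdjoinRoot H) := AdjoinRoot.isDomain_of_prime hprime
  obtain ⟨ρ, hρ⟩ := norm_bound_aux (K := K) (B := AdjoinRoot H)
    (d := H.natDegree) (AdjoinRoot.powerBasis' hm).basis (AdjoinRoot.root H)
    (fun i => (AdjoinRoot.powerBasis' hm).basis_eq_pow i) I
  refine ⟨ρ, fun w hw F hF => hρ w hw F fun a ha => ?_⟩
  obtain ⟨y, hy, hgy⟩ := hF a ha
  refine ⟨AdjoinRoot.lift (evalRingHom a) y (by rw [eval₂_eq_eval_map]; exact hy), fun p => ?_, ?_⟩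
  · exact AdjoinRoot.lift_of _
  · rw [AdjoinRoot.lift_root]
    exact hgy

end HilbertFq
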