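import Pool.Agent.Lib.HilbertFq.Det
import Pool.Agent.Lib.HilbertFq.Newton
import Pool.Agent.Lib.HilbertFq.NormBound
import Pool.Agent.Lib.HilbertFq.Count

/-!
The determinant method over `k[X]`: all points of `h(a, y) = 0` of bounded degree in one residue
class lie on an auxiliary curve; consequence for the number of `a` for which `h(a, Y)` has a root.
-/

set_option autoImplicit false

namespace HilbertFq

open Finset Polynomial

section class_lemma

variable {k : Type*} [Field k] {K : Type*} [Field K] [Algebra k[X] K] [IsFractionRing k[X] K]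

/-- All points in one residue class are annihilated by one functional on monomials. -/
theorem class_functional (h : k[X][X][X]) {d' c E δ : ℕ} (hd' : 1 ≤ d')
    (hc1 : 1 ≤ c) (hE : 1 ≤ E) (Q : k[X]) (hQ : Q.natDegree = δ) (hδ : 1 ≤ δ) (a₁ y₁ : k[X])
    (h1 : (h.map (evalRingHom a₁)).eval y₁ = 0)
    (hcop : IsCoprime ((h.map (evalRingHom a₁)).derivative.eval y₁) Q)
    (V : Set (k[X] × k[X]))
    (hV0 : ∀ p ∈ V, (h.map (evalRingHom p.1)).eval p.2 = 0)
    (hV1 : ∀ p ∈ V, Q ^ (3 * E) ∣ p.1 - a₁) (hV2 : ∀ p ∈ V, Q ∣ p.2 - y₁)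
    (hV3 : ∀ p ∈ V, p.1.natDegree ≤ 4 * E * δ) (hV4 : ∀ p ∈ V, p.2.natDegree ≤ c * (4 * E * δ)) :
    ∃ w : Fin (4 * c * (d' + 1) + 1) × Fin (d' + 1) → K, w ≠ 0 ∧ ∀ p ∈ V,
      ∑ j, w j * ((algebraMap k[X] K p.1) ^ (j.1 : ℕ) * (algebraMap k[X] K p.2) ^ (j.2 : ℕ)) = 0 := by
  classical
  let ι := Fin (4 * c * (d' + 1) + 1) × Fin (d' + 1)
  let vec : k[X] × k[X] → (ι → k[X]) := fun p j => p.1 ^ (j.1 : ℕ) * p.2 ^ (j.2 : ℕ)
  have hdet : ∀ q : ι → k[X] × k[X], (∀ l, q l ∈ V) →
      (Matrix.of fun l => vec (q l)).det = 0 := by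
    intro q hq
    by_contra hne
    set σ := ∑ i ∈ range (Fintype.card ι), i with hσ
    obtain ⟨φ, hφ⟩ := exists_approx h a₁ y₁ Q (3 * E) (by omega) h1 hcop (σ - 1)
    have hσ1 : 1 ≤ σ := by
      have hcard : 2 ≤ Fintype.card ι := by
        have : Fintype.card ι = (4 * c * (d' + 1) + 1) * (d' + 1) := by
          rw [Fintype.card_prod, Fintype.card_fin, Fintype.card_fin]
        rw [this]
        calc 2 ≤ 1 * (d' + 1) := by omega
          _ ≤ _ := Nat.mul_le_mul_right _ (by omega)
      have h2 : ∑ i ∈ range 2, i ≤ σ := by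
        apply Finset.sum_le_sum_of_subset
        intro x hx
        rw [mem_range] at hx ⊢
        omega
      simpa [Finset.sum_range_succ] using h2
    have hσ2 : σ - 1 + 1 = σ := by omega
    rw [hσ2] at hφ
    have hdvd : (Q ^ (3 * E)) ^ σ ∣ (Matrix.of fun l => vec (q l)).det := by
      refine dvd_det_of_congr (Q ^ (3 * E)) (fun l => (q l).1 - a₁) (fun l => hV1 _ (hq l))
        (fun j => (C a₁ + X) ^ (j.1 : ℕ) * φ ^ (j.2 : ℕ)) _ ?_
      intro l j
      rw [← hσ, ← pow_mul]
      change Q ^ (3 * E * σ) ∣ (q l).1 ^ (j.1 : ℕ) * (q l).2 ^ (j.2 : ℕ) - _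
      simp only [eval_mul, eval_pow, eval_add, eval_C, eval_X]
      rw [show a₁ + ((q l).1 - a₁) = (q l).1 by ring, ← mul_sub]
      refine Dvd.dvd.mul_left ?_ _
      refine (hφ _ _ (hV0 _ (hq l)) (hV1 _ (hq l)) (hV2 _ (hq l))).trans ?_
      exact sub_dvd_pow_sub_pow _ _ _
    have hdeg1 : (Matrix.of fun l => vec (q l)).det.natDegree ≤
        ∑ j : ι, ((j.1 : ℕ) * (4 * E * δ) + (j.2 : ℕ) * (c * (4 * E * δ))) := by
      apply natDegree_det_le_sum
      intro l j
      change ((q l).1 ^ (j.1 : ℕ) * (q l).2 ^ (j.2 : ℕ)).natDegree ≤ _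
      refine natDegree_mul_le.trans ?_
      exact Nat.add_le_add (natDegree_pow_le.trans (Nat.mul_le_mul_left _ (hV3 _ (hq l))))
        (natDegree_pow_le.trans (Nat.mul_le_mul_left _ (hV4 _ (hq l))))
    have hdeg2 := natDegree_le_of_dvd hdvd hne
    rw [natDegree_pow, natDegree_pow, hQ] at hdeg2
    have hnum := numeric d' c E δ hd' hc1 hE hδ
    exact absurd (lt_of_le_of_lt (hdeg2.trans hdeg1) hnum) (lt_irrefl _)
  obtain ⟨w, hw0, hw⟩ := exists_functional (K := K) (ι := ι)
    {v | ∃ p ∈ V, v = fun j => algebraMap k[X] K (vec p j)} (by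
      intro q hq
      choose p hpV hpq using hq
      have h2 : (Matrix.of q) = (Matrix.of fun l => vec (p l)).map (algebraMap k[X] K) := by
        funext l j
        change q l j = algebraMap k[X] K (vec (p l) j)
        rw [hpq l]
      rw [h2, ← RingHom.mapMatrix_apply, ← RingHom.map_det, hdet p hpV, map_zero])
  refine ⟨w, hw0, fun p hp => ?_⟩
  have h2 := hw _ ⟨p, hp, rfl⟩
  rw [← h2]
  refine Finset.sum_congr rfl fun j _ => ?_
  change _ = w j * algebraMap k[X] K (p.1 ^ (j.1 : ℕ) * p.2 ^ (j.2 : ℕ))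
  rw [map_mul, map_pow, map_pow]

end class_lemma

section finite

variable {k : Type*} [Field k] [Fintype k]

/-- The polynomials of degree less than `n`. -/
noncomputable def Pn (k : Type*) [Field k] [Fintype k] (n : ℕ) : Finset k[X] := by
  classical
  exact (univ : Finset (Fin n → k)).image fun c => ((degreeLTEquiv k n).symm c : k[X])

theorem mem_Pn {n : ℕ} {p : k[X]} : p ∈ Pn k n ↔ p.degree < n := by
  classical
  unfold Pn
  rw [mem_image]
  constructor
  · rintro ⟨c, -, rfl⟩
    exact mem_degreeLT.mp ((degreeLTEquiv k n).symm c).2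
  · intro hp
    refine ⟨degreeLTEquiv k n ⟨p, mem_degreeLT.mpr hp⟩, mem_univ _, ?_⟩
    rw [LinearEquiv.symm_apply_apply]

theorem card_Pn (n : ℕ) : (Pn k n).card = Fintype.card k ^ n := by
  classical
  unfold Pn
  rw [Finset.card_image_of_injective, Finset.card_univ, Fintype.card_fun, Fintype.card_fin]
  intro c c' hcc
  exact (degreeLTEquiv k n).symm.injective (Subtype.ext hcc)

variable {K : Type*} [Field K] [Algebra k[X] K] [IsFractionRing k[X] K]

theorem class_count (h : k[X][X][X]) (hm : h.Monic) (hd : 2 ≤ h.natDegree)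
    (hirr : Irreducible (h.map (mapRingHom (algebraMap k[X] K))))
    (A B : k[X][X][X]) (D : k[X][X]) (hD : C D = A * h + B * derivative h)
    (Q : k[X]) (hQ : 1 ≤ Q.natDegree) (a₀ : k[X]) (hQD : IsCoprime (D.eval a₀) Q) :
    ∃ ρ : ℕ, ∀ (E : ℕ) (_ : 1 ≤ E) (F : Finset k[X]),
      (∀ a ∈ F, a.natDegree ≤ 4 * E * Q.natDegree ∧ Q ∣ a - a₀ ∧
        ∃ y, (h.map (evalRingHom a)).eval y = 0) →
      F.card ≤ ρ * Fintype.card k ^ (3 * E * Q.natDegree + Q.natDegree) := by
  classical
  obtain ⟨c, hc1, hc⟩ := natDegree_root_le h hm (by omega)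
  obtain ⟨d', hd'⟩ : ∃ d', h.natDegree = d' + 1 := ⟨h.natDegree - 1, by omega⟩
  have hmK : (h.map (mapRingHom (algebraMap k[X] K))).Monic := hm.map _
  have hdK : (h.map (mapRingHom (algebraMap k[X] K))).natDegree = d' + 1 := by
    rw [hm.natDegree_map, hd']
  obtain ⟨ρ, hρ⟩ := norm_bound (h.map (mapRingHom (algebraMap k[X] K))) hmK hirr
    (4 * c * (d' + 1))
  rw [hdK] at hρ
  have hinj : Function.Injective (algebraMap k[X] K) := IsFractionRing.injective _ _
  have hQ0 : Q ≠ 0 := by
    rintro rfl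
    simp at hQ
  refine ⟨ρ, fun E hE F hF => ?_⟩
  choose! y hy using fun a (ha : a ∈ F) => (hF a ha).2.2
  let f : k[X] → k[X] × k[X] := fun a => (a % Q ^ (3 * E), y a % Q)
  have himg : F.image f ⊆ Pn k (3 * E * Q.natDegree) ×ˢ Pn k Q.natDegree := by
    intro t ht
    obtain ⟨a, ha, rfl⟩ := mem_image.mp ht
    rw [mem_product, mem_Pn, mem_Pn]
    constructor
    · refine (degree_mod_lt _ (pow_ne_zero _ hQ0)).trans_le ?_
      rw [degree_eq_natDegree (pow_ne_zero _ hQ0), natDegree_pow]
    · refine (degree_mod_lt _ hQ0).trans_le ?_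
      rw [degree_eq_natDegree hQ0]
  have hcard : (F.image f).card ≤ Fintype.card k ^ (3 * E * Q.natDegree + Q.natDegree) := by
    refine (Finset.card_le_card himg).trans ?_
    rw [card_product, card_Pn, card_Pn, pow_add]
  have hfib : ∀ t ∈ F.image f, (F.filter fun a => f a = t).card ≤ ρ := by
    intro t ht
    obtain ⟨a₁, ha₁, rfl⟩ := mem_image.mp ht
    have h1 := hy a₁ ha₁
    have hcop : IsCoprime ((h.map (evalRingHom a₁)).derivative.eval (y a₁)) Q := by
      have h2 : D.eval a₁ = (B.map (evalRingHom a₁)).eval (y a₁) *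
          (h.map (evalRingHom a₁)).derivative.eval (y a₁) := by
        have h3 := congrArg (fun p : k[X][X][X] => (p.map (evalRingHom a₁)).eval (y a₁)) hD
        simp only [Polynomial.map_add, Polynomial.map_mul, eval_add, eval_mul, h1, mul_zero,
          zero_add, map_C, eval_C, coe_evalRingHom] at h3
        rw [h3, derivative_map]
      have h3 : IsCoprime (D.eval a₁) Q := by
        have h4 : a₁ - a₀ ∣ D.eval a₁ - D.eval a₀ := sub_dvd_eval_sub _ _ _
        obtain ⟨r, hr⟩ := (hF a₁ ha₁).2.1.trans h4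
        have h5 : D.eval a₁ = D.eval a₀ + Q * r := by
          rw [← hr]
          ring
        rw [h5]
        exact IsCoprime.add_mul_left_left hQD r
      rw [h2] at h3
      exact h3.of_mul_left_right
    have hmod : ∀ {M u v : k[X]}, u % M = v % M → M ∣ u - v := by
      intro M u v huv
      have h5 : u - v = M * (u / M - v / M) := by
        conv_lhs => rw [← EuclideanDomain.div_add_mod u M, ← EuclideanDomain.div_add_mod v M, huv]
        ring
      exact ⟨_, h5⟩
    have hN : 1 ≤ 4 * E * Q.natDegree := Nat.mul_pos (by omega) hQ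
    obtain ⟨w, hw0, hw⟩ := class_functional (K := K) h (d' := d') (c := c) (E := E)
      (by omega) hc1 hE Q rfl hQ a₁ (y a₁) h1 hcop
      {p | p.1 ∈ F ∧ f p.1 = f a₁ ∧ p.2 = y p.1}
      (by
        rintro ⟨a, b⟩ ⟨h5, h6, h7⟩
        simp only at h7
        subst h7
        exact hy a h5)
      (by
        rintro ⟨a, b⟩ ⟨h5, h6, h7⟩
        exact hmod (congrArg Prod.fst h6))
      (by
        rintro ⟨a, b⟩ ⟨h5, h6, h7⟩
        simp only at h7
        subst h7
        exact hmod (congrArg Prod.snd h6))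
      (by
        rintro ⟨a, b⟩ ⟨h5, h6, h7⟩
        exact (hF a h5).1)
      (by
        rintro ⟨a, b⟩ ⟨h5, h6, h7⟩
        simp only at h7
        subst h7
        exact hc _ a (y a) hN (hF a h5).1 (hy a h5))
    have h8 := hρ w hw0 ((F.filter fun a => f a = f a₁).image (algebraMap k[X] K)) (by
      intro b hb
      obtain ⟨a, ha, rfl⟩ := mem_image.mp hb
      rw [mem_filter] at ha
      refine ⟨algebraMap k[X] K (y a), ?_, hw (a, y a) ⟨ha.1, ha.2, rfl⟩⟩
      have h9 : (evalRingHom (algebraMap k[X] K a)).comp (mapRingHom (algebraMap k[X] K)) =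
          (algebraMap k[X] K).comp (evalRingHom a) := by
        apply Polynomial.ringHom_ext
        · intro x
          simp
        · simp
      rw [Polynomial.map_map, h9, ← Polynomial.map_map, eval_map_algebraMap,
        aeval_algebraMap_apply, coe_aeval_eq_eval, hy a ha.1, map_zero])
    rwa [Finset.card_image_of_injective _ hinj] at h8
  calc F.card ≤ ρ * (F.image f).card := Finset.card_le_mul_card_image F ρ hfib
    _ ≤ _ := Nat.mul_le_mul_left _ hcard

end finite

end HilbertFq
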