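import Mathlib

/-!
A determinant `det (ψ_j (z_l))` with all `z_l` divisible by `P` is divisible by
`P ^ (s (s - 1) / 2)`.
-/

set_option autoImplicit false

namespace HilbertFq

open Finset Polynomial

theorem sum_range_card_le (n : ℕ) : ∀ s : Finset ℕ, s.card = n → ∑ i ∈ range n, i ≤ ∑ x ∈ s, x := by
  induction n with
  | zero => intro s _; simp
  | succ n ih =>
    intro s hs
    have hne : s.Nonempty := by
      rw [← Finset.card_pos]
      omega
    have hmax : s.max' hne ∈ s := s.max'_mem hne
    have h1 : (s.erase (s.max' hne)).card = n := by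
      rw [Finset.card_erase_of_mem hmax, hs]
      rfl
    have h2 : n ≤ s.max' hne := by
      have h3 : s ⊆ range (s.max' hne + 1) := by
        intro x hx
        rw [mem_range]
        have := s.le_max' x hx
        omega
      have h4 := Finset.card_le_card h3
      rw [card_range, hs] at h4
      omega
    rw [sum_range_succ, ← Finset.sum_erase_add s _ hmax]
    exact Nat.add_le_add (ih _ h1) h2

/-- The sum of `s` distinct natural numbers is at least `0 + 1 + … + (s - 1)`. -/
theorem sum_range_le_of_injective {ι : Type*} [Fintype ι] (f : ι → ℕ)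
    (hf : Function.Injective f) : ∑ i ∈ range (Fintype.card ι), i ≤ ∑ i, f i := by
  classical
  have h1 : ∑ i, f i = ∑ x ∈ univ.image f, x := by
    rw [Finset.sum_image (fun a _ b _ h => hf h)]
  have h2 : (univ.image f).card = Fintype.card ι := by
    rw [Finset.card_image_of_injective _ hf, Finset.card_univ]
  rw [h1]
  exact sum_range_card_le _ _ h2

/-- Power series version of the divisibility. -/
theorem dvd_det_of_powers {R : Type*} [CommRing R] {ι : Type*} [Fintype ι] [DecidableEq ι]
    (P : R) (b : ι → R) (n : ℕ) (c : ℕ → ι → R) :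
    P ^ (∑ i ∈ range (Fintype.card ι), i) ∣
      (Matrix.of fun l j => ∑ r ∈ range n, (P * b l) ^ r * c r j).det := by
  have h1 : (Matrix.of fun l j => ∑ r ∈ range n, (P * b l) ^ r * c r j) =
      fun l => ∑ r ∈ range n, (P * b l) ^ r • c r := by
    funext l j
    simp [Finset.sum_apply]
  have h2 : (Matrix.of fun l j => ∑ r ∈ range n, (P * b l) ^ r * c r j).det =
      ∑ r ∈ Fintype.piFinset (fun _ : ι => range n),
        (Matrix.detRowAlternating (R := R) (n := ι)) (fun l => (P * b l) ^ (r l) • c (r l)) := by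
    rw [h1]
    exact (Matrix.detRowAlternating (R := R) (n := ι)).toMultilinearMap.map_sum_finset _ _
  rw [h2]
  apply Finset.dvd_sum
  intro r _
  have h3 : (Matrix.detRowAlternating (R := R) (n := ι)) (fun l => (P * b l) ^ (r l) • c (r l)) =
      (∏ l, (P * b l) ^ (r l)) • (Matrix.detRowAlternating (R := R) (n := ι))
        (fun l => c (r l)) :=
    (Matrix.detRowAlternating (R := R) (n := ι)).toMultilinearMap.map_smul_univ _ _
  rw [h3]
  by_cases hr : Function.Injective r
  · refine Dvd.dvd.mul_right ?_ _
    have h4 : ∏ l, (P * b l) ^ (r l) = P ^ (∑ l, r l) * ∏ l, (b l) ^ (r l) := by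
      rw [← Finset.prod_pow_eq_pow_sum, ← Finset.prod_mul_distrib]
      exact Finset.prod_congr rfl fun l _ => mul_pow _ _ _
    rw [h4]
    exact Dvd.dvd.mul_right (pow_dvd_pow P (sum_range_le_of_injective r hr)) _
  · have h4 : ∃ l l', r l = r l' ∧ l ≠ l' := by
      simpa [Function.Injective, and_comm] using hr
    obtain ⟨l, l', hll, hne⟩ := h4
    rw [AlternatingMap.map_eq_zero_of_eq _ _ (i := l) (j := l') (by rw [hll]) hne, smul_zero]
    exact dvd_zero _

/-- Polynomial version of the divisibility. -/
theorem dvd_det_of_polys {R : Type*} [CommRing R] {ι : Type*} [Fintype ι] [DecidableEq ι]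
    (P : R) (z : ι → R) (hz : ∀ l, P ∣ z l) (ψ : ι → R[X]) :
    P ^ (∑ i ∈ range (Fintype.card ι), i) ∣ (Matrix.of fun l j => (ψ j).eval (z l)).det := by
  choose b hb using hz
  set n : ℕ := (univ.sup fun j => (ψ j).natDegree) + 1 with hn
  have h1 : (Matrix.of fun l j => (ψ j).eval (z l)) =
      Matrix.of fun l j => ∑ r ∈ range n, (P * b l) ^ r * (ψ j).coeff r := by
    funext l j
    simp only [Matrix.of_apply]
    rw [eval_eq_sum_range' (n := n) (by
      have : (ψ j).natDegree ≤ univ.sup fun j => (ψ j).natDegree :=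
        Finset.le_sup (f := fun j => (ψ j).natDegree) (mem_univ j)
      omega)]
    refine Finset.sum_congr rfl fun r _ => ?_
    rw [hb l, mul_comm]
  rw [h1]
  exact dvd_det_of_powers P b n fun r j => (ψ j).coeff r

/-- Congruence version of the divisibility. -/
theorem dvd_det_of_congr {R : Type*} [CommRing R] {ι : Type*} [Fintype ι] [DecidableEq ι]
    (P : R) (z : ι → R) (hz : ∀ l, P ∣ z l) (ψ : ι → R[X]) (M : Matrix ι ι R)
    (hM : ∀ l j, P ^ (∑ i ∈ range (Fintype.card ι), i) ∣ M l j - (ψ j).eval (z l)) :
    P ^ (∑ i ∈ range (Fintype.card ι), i) ∣ M.det := by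
  set m := ∑ i ∈ range (Fintype.card ι), i with hm
  have h1 := dvd_det_of_polys P z hz ψ
  rw [← hm] at h1
  set M' : Matrix ι ι R := Matrix.of fun l j => (ψ j).eval (z l) with hM'
  have h2 : P ^ m ∣ M.det - M'.det := by
    rw [← Ideal.mem_span_singleton, ← Ideal.Quotient.eq, RingHom.map_det, RingHom.map_det]
    congr 1
    funext l j
    simp only [RingHom.mapMatrix_apply, Matrix.map_apply]
    rw [Ideal.Quotient.eq, Ideal.mem_span_singleton]
    exact hM l j
  have h3 := dvd_add h2 h1
  rwa [sub_add_cancel] at h3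

end HilbertFq
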