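import Mathlib

/-!
Reduction of Hilbert irreducibility to avoiding roots: for `f(T, Y)` over a field `K`, irreducible
and separable in `Y` over `K(T)`, there are finitely many `m(T, Z)`, monic of degree at least two
in `Z`, irreducible and separable over `K(T)`, such that `f(a, Y)` is irreducible as soon as the
leading coefficient does not vanish at `a` and no `m(a, Z)` has a root in `K`.
-/

set_option autoImplicit false

namespace HilbertFq

open Finset Polynomial

/-- Monic divisors of a product of linear factors. -/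
theorem exists_subset_prod {L : Type*} [Field L] {ι : Type*} [DecidableEq ι] (x : ι → L)
    (S : Finset ι) : ∀ p : L[X], p.Monic → p ∣ ∏ i ∈ S, (X - C (x i)) →
      ∃ I ⊆ S, p = ∏ i ∈ I, (X - C (x i)) := by
  induction S using Finset.induction with
  | empty =>
    intro p hp hdvd
    rw [prod_empty] at hdvd
    exact ⟨∅, Finset.Subset.refl _, by
      rw [prod_empty]; exact hp.eq_one_of_isUnit (isUnit_of_dvd_one hdvd)⟩
  | insert j S hj ih =>
    intro p hp hdvd
    rw [prod_insert hj] at hdvd
    by_cases h0 : p.IsRoot (x j)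
    · obtain ⟨p', hp'⟩ := dvd_iff_isRoot.mpr h0
      have hm' : p'.Monic := by
        rw [hp'] at hp
        exact (monic_X_sub_C (x j)).of_mul_monic_left hp
      have hdvd' : p' ∣ ∏ i ∈ S, (X - C (x i)) := by
        rw [hp'] at hdvd
        exact (mul_dvd_mul_iff_left (X_sub_C_ne_zero (x j))).mp hdvd
      obtain ⟨I, hIS, hI⟩ := ih p' hm' hdvd'
      refine ⟨insert j I, Finset.insert_subset_insert j hIS, ?_⟩
      rw [prod_insert (fun h => hj (hIS h)), ← hI, hp']
    · have hcop : IsCoprime p (X - C (x j)) := by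
        rw [isCoprime_comm, (irreducible_X_sub_C (x j)).coprime_iff_not_dvd, dvd_iff_isRoot]
        exact h0
      obtain ⟨I, hIS, hI⟩ := ih p hp (hcop.dvd_of_dvd_mul_left hdvd)
      exact ⟨I, hIS.trans (Finset.subset_insert j S), hI⟩

/-- Specializations `T ↦ a` extend to integral extensions. -/
theorem exists_specialization {K : Type*} [Field K] {B : Type*} [CommRing B] [Algebra K[X] B]
    [Algebra.IsIntegral K[X] B] (hinj : Function.Injective (algebraMap K[X] B)) (a : K) :
    ∃ θ : B →+* AlgebraicClosure K, ∀ p : K[X],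
      θ (algebraMap K[X] B p) = algebraMap K (AlgebraicClosure K) (p.eval a) := by
  let P : Ideal K[X] := RingHom.ker (evalRingHom a)
  have hPmax : P.IsMaximal := RingHom.ker_isMaximal_of_surjective (evalRingHom a)
    (fun c => ⟨C c, by simp⟩)
  have hfaith : FaithfulSMul K[X] B := by
    rw [faithfulSMul_iff_algebraMap_injective]
    exact hinj
  obtain ⟨Q, hQ, hQP⟩ := Ideal.exists_maximal_ideal_liesOver_of_isIntegral (S := B) P
  let _ : Field (B ⧸ Q) := Ideal.Quotient.field Q
  let _ : Algebra K (B ⧸ Q) :=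
    (((Ideal.Quotient.mk Q).comp (algebraMap K[X] B)).comp (C : K →+* K[X])).toAlgebra
  have hmap : ∀ p : K[X], Ideal.Quotient.mk Q (algebraMap K[X] B p) =
      algebraMap K (B ⧸ Q) (p.eval a) := by
    intro p
    change _ = Ideal.Quotient.mk Q (algebraMap K[X] B (C (p.eval a)))
    rw [Ideal.Quotient.eq, ← map_sub]
    have h1 : p - C (p.eval a) ∈ P := by
      rw [RingHom.mem_ker]
      simp
    rw [hQP.over] at h1
    exact h1
  have halg : Algebra.IsAlgebraic K (B ⧸ Q) := by
    constructor
    intro x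
    obtain ⟨b, rfl⟩ := Ideal.Quotient.mk_surjective x
    obtain ⟨p, hpm, hp⟩ := Algebra.IsIntegral.isIntegral (R := K[X]) b
    refine ⟨p.map (evalRingHom a), (hpm.map _).ne_zero, ?_⟩
    rw [aeval_def, eval₂_map]
    have h1 : (algebraMap K (B ⧸ Q)).comp (evalRingHom a) =
        (Ideal.Quotient.mk Q).comp (algebraMap K[X] B) := by
      exact RingHom.ext fun p => (hmap p).symm
    rw [h1, ← hom_eval₂, hp, map_zero]
  let φ : B ⧸ Q →ₐ[K] AlgebraicClosure K := IsAlgClosed.lift
  refine ⟨(φ : B ⧸ Q →+* AlgebraicClosure K).comp (Ideal.Quotient.mk Q), fun p => ?_⟩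
  change φ (Ideal.Quotient.mk Q (algebraMap K[X] B p)) = _
  rw [hmap, AlgHom.commutes]

/-- Enumeration of the roots. -/
theorem exists_enum {L : Type*} [Field L] (f : L[X]) (hf : f.Splits) :
    ∃ y : Fin f.natDegree → L, f = C f.leadingCoeff * ∏ i, (X - C (y i)) := by
  have hcard : Multiset.card f.roots = f.natDegree := (splits_iff_card_roots.mp hf)
  have h1 := hf.eq_prod_roots
  obtain ⟨l, hl⟩ := Quot.exists_rep f.roots
  change (l : Multiset L) = f.roots at hl
  have hlen : l.length = f.natDegree := by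
    rw [← hcard, ← hl, Multiset.coe_card]
  refine ⟨fun i => l.get (i.cast hlen.symm), ?_⟩
  conv_lhs => rw [h1]
  congr 1
  rw [← hl, Multiset.map_coe, Multiset.prod_coe]
  have h2 : l.map (fun a => X - C a) =
      List.ofFn fun i : Fin f.natDegree => (X - C (l.get (i.cast hlen.symm))) := by
    apply List.ext_get
    · simp [hlen]
    · intro i h3 h4
      simp
  rw [h2, List.prod_ofFn]

section main

variable {K : Type*} [Field K]

theorem exists_family_aux {F Ω : Type*} [Field F] [Field Ω] [Algebra K[X] F]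
    [IsFractionRing K[X] F] [Algebra F Ω] [Algebra K[X] Ω] [IsScalarTower K[X] F Ω]
    [Algebra.IsAlgebraic F Ω] [Algebra.IsSeparable F Ω] (f : K[X][X])
    (hirr : Irreducible (f.map (algebraMap K[X] F)))
    (hsplit : (f.map (algebraMap K[X] Ω)).Splits) :
    ∃ (ι : Type) (_ : Finite ι) (m : ι → K[X][X]),
      (∀ i, (m i).Monic ∧ 2 ≤ (m i).natDegree ∧
        Irreducible ((m i).map (algebraMap K[X] F)) ∧
        ((m i).map (algebraMap K[X] F)).Separable) ∧
      ∀ a : K, f.leadingCoeff.eval a ≠ 0 →
        (∀ i, ∀ z : K, ((m i).map (evalRingHom a)).eval z ≠ 0) →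
        Irreducible (f.map (evalRingHom a)) := by
  classical
  have hinjF : Function.Injective (algebraMap K[X] F) := IsFractionRing.injective _ _
  have hf0 : f ≠ 0 := by
    rintro rfl
    rw [Polynomial.map_zero] at hirr
    exact not_irreducible_zero hirr
  have hnF : (f.map (algebraMap K[X] F)).natDegree = f.natDegree :=
    natDegree_map_eq_of_injective hinjF f
  obtain ⟨n, hn⟩ : ∃ n, n = f.natDegree := ⟨_, rfl⟩
  obtain ⟨c, hc⟩ : ∃ c, c = f.leadingCoeff := ⟨_, rfl⟩
  have hc0 : c ≠ 0 := by
    rw [hc]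
    exact leadingCoeff_ne_zero.mpr hf0
  have hn1 : 1 ≤ n := by
    rw [hn, ← hnF]
    exact hirr.natDegree_pos
  have hinjΩ : Function.Injective (algebraMap F Ω) := (algebraMap F Ω).injective
  have hKΩ : algebraMap K[X] Ω = (algebraMap F Ω).comp (algebraMap K[X] F) :=
    IsScalarTower.algebraMap_eq _ _ _
  have hinjKΩ : Function.Injective (algebraMap K[X] Ω) := by
    rw [hKΩ]
    exact hinjΩ.comp hinjF
  have hnΩ : (f.map (algebraMap K[X] Ω)).natDegree = n := by
    rw [hn]
    exact natDegree_map_eq_of_injective hinjKΩ f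
  have hlcΩ : (f.map (algebraMap K[X] Ω)).leadingCoeff = algebraMap K[X] Ω c := by
    rw [hc]
    exact leadingCoeff_map_of_injective hinjKΩ f
  obtain ⟨y, hy⟩ : ∃ y : Fin n → Ω, f.map (algebraMap K[X] Ω) =
      C (algebraMap K[X] Ω c) * ∏ i, (X - C (y i)) := by
    rw [← hlcΩ, ← hnΩ]
    exact exists_enum _ hsplit
  have hyroot' : ∀ i, aeval (y i) f = 0 := by
    intro i
    rw [← eval_map_algebraMap, hy, eval_mul, eval_prod,
      Finset.prod_eq_zero (mem_univ i) (by simp), mul_zero]
  have hyroot : ∀ i, aeval (y i) (f.map (algebraMap K[X] F)) = 0 := by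
    intro i
    rw [aeval_map_algebraMap, hyroot' i]
  -- integrality of `c * y i`
  have hint : ∀ i, IsIntegral K[X] (algebraMap K[X] Ω c * y i) := by
    intro i
    have h3 := isIntegral_leadingCoeff_smul f (y i) (hyroot' i)
    rwa [← hc, Algebra.smul_def] at h3
  let B := integralClosure K[X] Ω
  let z : Fin n → B := fun i => ⟨algebraMap K[X] Ω c * y i, hint i⟩
  have hminy : ∀ i, (minpoly F (y i)).natDegree = n := by
    intro i
    rw [← minpoly.eq_of_irreducible hirr (hyroot i), natDegree_mul_C, hnF, hn]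
    exact inv_ne_zero (leadingCoeff_ne_zero.mpr hirr.ne_zero)
  have hBinj : Function.Injective (algebraMap B Ω) := FaithfulSMul.algebraMap_injective _ _
  have hBval : ∀ b : B, algebraMap B Ω b = (b : Ω) := fun _ => rfl
  -- a coefficient outside the ground field
  have hexist : ∀ I : {I : Finset (Fin n) // I.Nonempty ∧ I ≠ univ},
      ∃ j, ((∏ i ∈ I.1, (X - C (z i)) : B[X]).coeff j : Ω) ∉ Set.range (algebraMap F Ω) := by
    rintro ⟨I, ⟨i, hi⟩, hIu⟩
    by_contra hcon
    push Not at hcon
    have hcard : I.card < n := by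
      have h1 := Finset.card_lt_card (Finset.ssubset_univ_iff.mpr hIu)
      simpa using h1
    let PB : B[X] := ∏ i ∈ I, (X - C (z i))
    have hPBm : PB.Monic := monic_prod_of_monic _ _ fun i _ => monic_X_sub_C _
    have hPBdeg : PB.natDegree = I.card := by
      change (∏ i ∈ I, (X - C (z i))).natDegree = _
      rw [natDegree_prod_of_monic _ _ fun i _ => monic_X_sub_C _]
      simp
    have hlift : PB.map (algebraMap B Ω) ∈ lifts (algebraMap F Ω) := by
      rw [lifts_iff_coeff_lifts]
      intro j
      obtain ⟨x, hx⟩ := hcon j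
      refine ⟨x, ?_⟩
      rw [hx, coeff_map]
      rfl
    obtain ⟨G, hG, hGdeg, hGm⟩ := lifts_and_natDegree_eq_and_monic hlift (hPBm.map _)
    have hGdeg' : G.natDegree = I.card := by
      rw [hGdeg, hPBm.natDegree_map, hPBdeg]
    have hGz : aeval (algebraMap K[X] Ω c * y i) G = 0 := by
      rw [← eval_map_algebraMap, hG]
      have h1 : PB.eval (z i) = 0 := by
        change (∏ i ∈ I, (X - C (z i))).eval (z i) = 0
        rw [eval_prod, Finset.prod_eq_zero hi (by simp)]
      have h2 : (PB.map (algebraMap B Ω)).eval (algebraMap B Ω (z i)) = 0 := by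
        rw [eval_map_algebraMap, aeval_algebraMap_apply, coe_aeval_eq_eval, h1, map_zero]
      exact h2
    have hcF : algebraMap K[X] F c ≠ 0 := by
      rw [Ne, map_eq_zero_iff _ hinjF]
      exact hc0
    have hG' : aeval (y i) (G.comp (C (algebraMap K[X] F c) * X)) = 0 := by
      rw [aeval_comp, map_mul, aeval_C, aeval_X, ← IsScalarTower.algebraMap_apply]
      exact hGz
    have hG'deg : (G.comp (C (algebraMap K[X] F c) * X)).natDegree = I.card := by
      rw [natDegree_comp, natDegree_C_mul_X _ hcF, mul_one, hGdeg']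
    have hG'0 : G.comp (C (algebraMap K[X] F c) * X) ≠ 0 := by
      intro h0
      rw [h0, natDegree_zero] at hG'deg
      have : 0 < I.card := Finset.card_pos.mpr ⟨i, hi⟩
      omega
    have h3 := natDegree_le_of_dvd (minpoly.dvd F (y i) hG') hG'0
    rw [hminy, hG'deg] at h3
    omega
  choose jI hjI using hexist
  let u : {I : Finset (Fin n) // I.Nonempty ∧ I ≠ univ} → B := fun I =>
    (∏ i ∈ I.1, (X - C (z i)) : B[X]).coeff (jI I)
  have huint : ∀ I, IsIntegral K[X] (u I : Ω) := fun I => (u I).2
  have hmin : ∀ I, minpoly F (u I : Ω) = (minpoly K[X] (u I : Ω)).map (algebraMap K[X] F) :=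
    fun I => minpoly.isIntegrallyClosed_eq_field_fractions' F (huint I)
  refine ⟨{I : Finset (Fin n) // I.Nonempty ∧ I ≠ univ}, inferInstance,
    fun I => minpoly K[X] (u I : Ω), fun I => ⟨minpoly.monic (huint I), ?_, ?_, ?_⟩, ?_⟩
  · have h1 : 2 ≤ (minpoly F (u I : Ω)).natDegree := by
      rw [minpoly.two_le_natDegree_iff (Algebra.IsIntegral.isIntegral _)]
      exact hjI I
    rwa [hmin, (minpoly.monic (huint I)).natDegree_map] at h1
  · rw [← hmin]
    exact minpoly.irreducible (Algebra.IsIntegral.isIntegral _)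
  · rw [← hmin]
    exact Algebra.IsSeparable.isSeparable F _
  · intro a hca hroots
    rw [← hc] at hca
    have hinjKB : Function.Injective (algebraMap K[X] B) := by
      intro p q hpq
      exact hinjKΩ (congrArg (algebraMap B Ω) hpq)
    obtain ⟨θ, hθ⟩ := exists_specialization hinjKB a
    set fa := f.map (evalRingHom a) with hfa
    have hfadeg : fa.natDegree = n := by
      rw [hn, hfa]
      refine natDegree_map_of_leadingCoeff_ne_zero _ ?_
      rw [← hc]
      exact hca
    have hfa0 : fa ≠ 0 := by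
      intro h0
      rw [h0, natDegree_zero] at hfadeg
      omega
    -- product formula over `B`
    have hprodB : C (algebraMap K[X] B (c ^ (n - 1))) * f.map (algebraMap K[X] B) =
        ∏ i, (C (algebraMap K[X] B c) * X - C (z i)) := by
      apply Polynomial.map_injective _ hBinj
      rw [Polynomial.map_mul, Polynomial.map_map, map_C, Polynomial.map_prod]
      have h1 : (algebraMap B Ω).comp (algebraMap K[X] B) = algebraMap K[X] Ω := rfl
      have h2 : (algebraMap B Ω) (algebraMap K[X] B (c ^ (n - 1))) =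
          (algebraMap K[X] Ω c) ^ (n - 1) := by
        rw [← map_pow]
        rfl
      rw [h1, h2, hy]
      have h3 : ∀ i, (C (algebraMap K[X] B c) * X - C (z i)).map (algebraMap B Ω) =
          C (algebraMap K[X] Ω c) * (X - C (y i)) := by
        intro i
        rw [Polynomial.map_sub, Polynomial.map_mul, map_C, map_C, map_X, mul_sub, ← C_mul]
        rfl
      rw [Finset.prod_congr rfl fun i _ => h3 i, Finset.prod_mul_distrib, Finset.prod_const,
        Finset.card_univ, Fintype.card_fin, C_pow, ← mul_assoc, ← pow_succ]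
      congr 2
      omega
    have hθcomp : θ.comp (algebraMap K[X] B) =
        (algebraMap K (AlgebraicClosure K)).comp (evalRingHom a) := RingHom.ext fun p => hθ p
    have hprodK : C (algebraMap K (AlgebraicClosure K) (c.eval a) ^ (n - 1)) *
        fa.map (algebraMap K (AlgebraicClosure K)) =
        ∏ i, (C (algebraMap K (AlgebraicClosure K) (c.eval a)) * X - C (θ (z i))) := by
      have h1 := congrArg (fun p : B[X] => p.map θ) hprodB
      simp only [Polynomial.map_mul, Polynomial.map_map, map_C, Polynomial.map_prod,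
        Polynomial.map_sub, map_X, hθcomp, hθ, map_pow] at h1
      rw [hfa, Polynomial.map_map, ← h1, Polynomial.map_pow, map_C, hθ, map_pow]
    set ca := algebraMap K (AlgebraicClosure K) (c.eval a) with hcadef
    have hca' : ca ≠ 0 := by
      rw [hcadef, Ne, map_eq_zero]
      exact hca
    have hprodK' : ∏ i, (C ca * X - C (θ (z i))) =
        C (ca ^ n) * ∏ i, (X - C (θ (z i) / ca)) := by
      have h3 : ∀ i, (C ca * X - C (θ (z i))) = C ca * (X - C (θ (z i) / ca)) := by
        intro i
        rw [mul_sub, ← C_mul, mul_div_cancel₀ _ hca']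
      rw [Finset.prod_congr rfl fun i _ => h3 i, Finset.prod_mul_distrib, Finset.prod_const,
        Finset.card_univ, Fintype.card_fin, C_pow]
    rw [irreducible_iff]
    refine ⟨fun hu => ?_, fun p q hpq => ?_⟩
    · rw [natDegree_eq_zero_of_isUnit hu] at hfadeg
      omega
    by_contra hcon
    push Not at hcon
    obtain ⟨hpu, hqu⟩ := hcon
    have hp0 : p ≠ 0 := by
      rintro rfl
      rw [zero_mul] at hpq
      exact hfa0 hpq
    have hq0 : q ≠ 0 := by
      rintro rfl
      rw [mul_zero] at hpq
      exact hfa0 hpq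
    have hdegs : p.natDegree + q.natDegree = n := by
      rw [← natDegree_mul hp0 hq0, ← hpq, hfadeg]
    have hpdeg : 0 < p.natDegree := by
      rw [natDegree_pos_iff_degree_pos]
      exact degree_pos_of_ne_zero_of_nonunit hp0 hpu
    have hqdeg : 0 < q.natDegree := by
      rw [natDegree_pos_iff_degree_pos]
      exact degree_pos_of_ne_zero_of_nonunit hq0 hqu
    obtain ⟨p', hp'⟩ : ∃ p' : K[X], p' = p * C p.leadingCoeff⁻¹ := ⟨_, rfl⟩
    have hp'm : p'.Monic := by
      rw [hp']
      exact monic_mul_leadingCoeff_inv hp0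
    have hp'deg : p'.natDegree = p.natDegree := by
      rw [hp']
      exact natDegree_mul_leadingCoeff_inv p hp0
    have hp'dvd : p' ∣ fa := by
      rw [hpq, hp']
      refine Dvd.dvd.mul_right ?_ q
      exact (IsUnit.mul_right_dvd (isUnit_C.mpr (isUnit_iff_ne_zero.mpr
        (inv_ne_zero (leadingCoeff_ne_zero.mpr hp0))))).mpr dvd_rfl
    have hdvd : p'.map (algebraMap K (AlgebraicClosure K)) ∣
        ∏ i ∈ univ, (X - C (θ (z i) / ca)) := by
      have h1 : p'.map (algebraMap K (AlgebraicClosure K)) ∣
          C (ca ^ n) * ∏ i, (X - C (θ (z i) / ca)) := by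
        rw [← hprodK', ← hprodK]
        exact Dvd.dvd.mul_left (Polynomial.map_dvd _ hp'dvd) _
      have h2 : IsUnit (C (ca ^ n)) := isUnit_C.mpr (isUnit_iff_ne_zero.mpr (pow_ne_zero n hca'))
      exact (IsUnit.dvd_mul_left h2).mp h1
    obtain ⟨I, -, hI⟩ := exists_subset_prod (fun i => θ (z i) / ca) univ _ (hp'm.map _) hdvd
    have hIdeg : I.card = p.natDegree := by
      rw [← hp'deg, ← hp'm.natDegree_map (algebraMap K (AlgebraicClosure K)), hI,
        natDegree_prod_of_monic _ _ fun i _ => monic_X_sub_C _]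
      simp
    have hIne : I.Nonempty := Finset.card_pos.mp (by omega)
    have hIu : I ≠ univ := by
      rintro rfl
      rw [Finset.card_univ, Fintype.card_fin] at hIdeg
      omega
    obtain ⟨J, hJ⟩ : ∃ J : {I : Finset (Fin n) // I.Nonempty ∧ I ≠ univ}, J.1 = I :=
      ⟨⟨I, hIne, hIu⟩, rfl⟩
    -- the specialized coefficient is in `K`
    have hcomp : (∏ i ∈ I, (X - C (θ (z i)))).comp (C ca * X) =
        C (ca ^ I.card) * p'.map (algebraMap K (AlgebraicClosure K)) := by
      rw [hI, Polynomial.prod_comp, C_pow, ← Finset.prod_const, ← Finset.prod_mul_distrib]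
      refine Finset.prod_congr rfl fun i _ => ?_
      rw [sub_comp, X_comp, C_comp, mul_sub, ← C_mul, mul_div_cancel₀ _ hca']
    have hcoef : θ (u J) = (∏ i ∈ I, (X - C (θ (z i)))).coeff (jI J) := by
      change θ ((∏ i ∈ J.1, (X - C (z i)) : B[X]).coeff (jI J)) = _
      rw [← coeff_map, Polynomial.map_prod, hJ]
      simp only [Polynomial.map_sub, map_X, map_C]
    obtain ⟨κ, hκ⟩ : ∃ κ : K, algebraMap K (AlgebraicClosure K) κ = θ (u J) := by
      refine ⟨(c.eval a) ^ I.card * p'.coeff (jI J) * ((c.eval a) ^ (jI J))⁻¹, ?_⟩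
      have h1 := congrArg (fun p : Polynomial (AlgebraicClosure K) => p.coeff (jI J)) hcomp
      simp only [comp_C_mul_X_coeff, coeff_C_mul, coeff_map] at h1
      rw [← hcoef] at h1
      rw [map_mul, map_mul, map_pow, map_inv₀, map_pow, ← hcadef, ← h1]
      field_simp
    apply hroots J κ
    apply (algebraMap K (AlgebraicClosure K)).injective
    rw [map_zero, ← coe_aeval_eq_eval, ← aeval_algebraMap_apply, hκ, aeval_def, eval₂_map,
      ← hθcomp, ← hom_eval₂]
    have h1 : eval₂ (algebraMap K[X] B) (u J) (minpoly K[X] (u J : Ω)) = 0 := by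
      apply hBinj
      rw [hom_eval₂, map_zero]
      exact minpoly.aeval K[X] (u J : Ω)
    rw [h1, map_zero]

end main

end HilbertFq
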