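import Pool.Agent.Lib.HilbertFq.Avoid
import Pool.Agent.Lib.HilbertFq.Red
import Pool.Agent.Lib.MP_7f581e_ntR.Defs

/-!
For a finite field `k` the rational function field `k(X)` is Hilbertian.
-/

set_option autoImplicit false

namespace HilbertFq

open Finset Polynomial

/-- Clearing denominators in polynomials. -/
theorem clear_poly {A A' : Type*} [CommRing A] [CommRing A'] (φ : A →+* A') (M : Submonoid A)
    (h : ∀ x : A', ∃ d ∈ M, ∃ a, φ a = φ d * x) (p : A'[X]) :
    ∃ d ∈ M, ∃ P : A[X], P.map φ = C (φ d) * p := by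
  induction p using Polynomial.induction_on' with
  | add p q hp hq =>
    obtain ⟨d, hd, P, hP⟩ := hp
    obtain ⟨e, he, Q, hQ⟩ := hq
    refine ⟨d * e, M.mul_mem hd he, C e * P + C d * Q, ?_⟩
    rw [Polynomial.map_add, Polynomial.map_mul, Polynomial.map_mul, map_C, map_C, hP, hQ, map_mul,
      C_mul]
    ring
  | monomial n a =>
    obtain ⟨d, hd, b, hb⟩ := h a
    refine ⟨d, hd, monomial n b, ?_⟩
    rw [map_monomial, hb, C_mul_monomial]

/-- Scaling the roots by a unit preserves irreducibility. -/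
theorem irreducible_scaleRoots {A : Type*} [CommRing A] [IsDomain A] (m : A[X]) (hm : m.Monic)
    (hirr : Irreducible m) (r : A) (hr : IsUnit r) : Irreducible (m.scaleRoots r) := by
  obtain ⟨r', hr'⟩ := hr.exists_right_inv
  have hdeg1 : 1 ≤ m.natDegree := by
    by_contra h0
    have h1 : m = 1 := hm.natDegree_eq_zero.mp (by omega)
    rw [h1] at hirr
    exact not_irreducible_one hirr
  have hdeg : ∀ (p : A[X]) (s : A), (p.scaleRoots s).natDegree = p.natDegree :=
    fun p s => natDegree_scaleRoots p s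
  rw [irreducible_iff]
  refine ⟨fun hu => ?_, fun p q hpq => ?_⟩
  · have h1 := natDegree_eq_zero_of_isUnit hu
    rw [hdeg] at h1
    omega
  have hback : m = p.scaleRoots r' * q.scaleRoots r' := by
    rw [← mul_scaleRoots_of_noZeroDivisors, ← hpq, ← scaleRoots_mul, hr', scaleRoots_one]
  have hlc : p.leadingCoeff * q.leadingCoeff = 1 := by
    rw [← leadingCoeff_mul, ← hpq]
    exact (monic_scaleRoots_iff r).mpr hm
  rcases hirr.isUnit_or_isUnit hback with h1 | h1
  · left
    have h2 := natDegree_eq_zero_of_isUnit h1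
    rw [hdeg] at h2
    rw [eq_C_of_natDegree_eq_zero h2]
    apply IsUnit.map
    rw [leadingCoeff, h2] at hlc
    exact IsUnit.of_mul_eq_one _ hlc
  · right
    have h2 := natDegree_eq_zero_of_isUnit h1
    rw [hdeg] at h2
    rw [eq_C_of_natDegree_eq_zero h2]
    apply IsUnit.map
    rw [mul_comm, leadingCoeff, h2] at hlc
    exact IsUnit.of_mul_eq_one _ hlc

section

variable {R K F : Type*} [CommRing R] [IsDomain R] [Field K] [Field F] [Algebra R K]
  [IsFractionRing R K] [Algebra K[X] F] [IsFractionRing K[X] F]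

theorem clear_K (x : K) : ∃ d ∈ nonZeroDivisors R, ∃ a, algebraMap R K a = algebraMap R K d * x := by
  obtain ⟨⟨a, d⟩, h⟩ := IsLocalization.surj (nonZeroDivisors R) x
  exact ⟨d, d.2, a, by rw [mul_comm]; exact h.symm⟩

theorem clear_KT (x : K[X]) : ∃ d ∈ nonZeroDivisors R, ∃ a : R[X],
    a.map (algebraMap R K) = C (algebraMap R K d) * x :=
  clear_poly (algebraMap R K) (nonZeroDivisors R) clear_K x

theorem clear_KTZ (x : K[X][X]) : ∃ d ∈ nonZeroDivisors R, ∃ a : R[X][X],
    a.map (mapRingHom (algebraMap R K)) = C (C (algebraMap R K d)) * x := by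
  obtain ⟨d, hd, P, hP⟩ := clear_poly (mapRingHom (algebraMap R K))
    ((nonZeroDivisors R).map (C : R →+* R[X])) (by
      intro x
      obtain ⟨d, hd, a, ha⟩ := clear_KT (R := R) x
      refine ⟨C d, ⟨d, hd, rfl⟩, a, ?_⟩
      rw [coe_mapRingHom, ha, map_C]) x
  obtain ⟨d, hd, rfl⟩ := hd
  refine ⟨d, hd, P, ?_⟩
  rw [hP]
  simp

theorem clear_F (x : F) : ∃ d ∈ nonZeroDivisors R[X], ∃ a : R[X],
    ((algebraMap K[X] F).comp (mapRingHom (algebraMap R K))) a =
      ((algebraMap K[X] F).comp (mapRingHom (algebraMap R K))) d * x := by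
  obtain ⟨⟨p, q⟩, h⟩ := IsLocalization.surj (nonZeroDivisors K[X]) x
  simp only at h
  obtain ⟨b, hb, P, hP⟩ := clear_KT (R := R) p
  obtain ⟨e, he, Q, hQ⟩ := clear_KT (R := R) (q : K[X])
  have hinj : Function.Injective (algebraMap R K) := IsFractionRing.injective R K
  have hQ0 : Q ≠ 0 := by
    rintro rfl
    rw [Polynomial.map_zero] at hQ
    have h1 : (q : K[X]) ≠ 0 := nonZeroDivisors.ne_zero q.2
    have h2 : (C (algebraMap R K e) : K[X]) ≠ 0 := by
      rw [Ne, C_eq_zero, map_eq_zero_iff _ hinj]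
      exact nonZeroDivisors.ne_zero he
    exact mul_ne_zero h2 h1 hQ.symm
  refine ⟨C b * Q, mem_nonZeroDivisors_of_ne_zero (mul_ne_zero ?_ hQ0), C e * P, ?_⟩
  · rw [Ne, C_eq_zero]
    exact nonZeroDivisors.ne_zero hb
  · simp only [RingHom.comp_apply, coe_mapRingHom, Polynomial.map_mul, map_C, hP, hQ, map_mul]
    rw [← h]
    ring

end

section scale

variable {R K F : Type*} [CommRing R] [IsDomain R] [Field K] [Field F] [Algebra R K]
  [IsFractionRing R K] [Algebra K[X] F] [IsFractionRing K[X] F]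

theorem exists_scaled (m : K[X][X]) (hm : m.Monic) (hd : 2 ≤ m.natDegree)
    (hirr : Irreducible (m.map (algebraMap K[X] F)))
    (hsep : (m.map (algebraMap K[X] F)).Separable) :
    ∃ (b : R) (h : R[X][X]), b ≠ 0 ∧ h.Monic ∧ h.natDegree = m.natDegree ∧
      h.map (mapRingHom (algebraMap R K)) = m.scaleRoots (C (algebraMap R K b)) ∧
      Irreducible (h.map (mapRingHom (algebraMap R K))) ∧
      ∃ (A B : R[X][X]) (D : R[X]), D ≠ 0 ∧ C D = A * h + B * derivative h := by
  have hinj : Function.Injective (algebraMap R K) := IsFractionRing.injective R K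
  have hinjF : Function.Injective (algebraMap K[X] F) := IsFractionRing.injective _ _
  obtain ⟨b, hb, P, hP⟩ := clear_KTZ (R := R) m
  have hb0 : b ≠ 0 := nonZeroDivisors.ne_zero hb
  set bK : K[X] := C (algebraMap R K b) with hbK
  have hbK0 : bK ≠ 0 := by
    rw [hbK, Ne, C_eq_zero, map_eq_zero_iff _ hinj]
    exact hb0
  have hbu : IsUnit bK := by
    rw [hbK]
    apply IsUnit.map
    rw [isUnit_iff_ne_zero, Ne, map_eq_zero_iff _ hinj]
    exact hb0
  have hsm : (m.scaleRoots bK).Monic := (monic_scaleRoots_iff _).mpr hm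
  have hlift : m.scaleRoots bK ∈ lifts (mapRingHom (algebraMap R K)) := by
    rw [lifts_iff_coeff_lifts]
    intro j
    rw [coeff_scaleRoots]
    rcases lt_trichotomy j m.natDegree with hj | hj | hj
    · refine ⟨P.coeff j * (C b) ^ (m.natDegree - j - 1), ?_⟩
      rw [map_mul, map_pow, ← coeff_map, hP, coeff_C_mul, coe_mapRingHom, map_C]
      have h1 : m.natDegree - j = (m.natDegree - j - 1) + 1 := by omega
      conv_rhs => rw [h1, pow_succ]
      rw [← hbK]
      ring
    · refine ⟨1, ?_⟩
      rw [map_one, hj, Nat.sub_self, pow_zero, mul_one, hm.coeff_natDegree]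
    · refine ⟨0, ?_⟩
      rw [map_zero, coeff_eq_zero_of_natDegree_lt hj, zero_mul]
  obtain ⟨h, hh, hhdeg, hhm⟩ := lifts_and_natDegree_eq_and_monic hlift hsm
  have hirrm : Irreducible m := (hm.irreducible_iff_irreducible_map_fraction_map (K := F)).mpr hirr
  have hirrs : Irreducible (m.scaleRoots bK) := irreducible_scaleRoots m hm hirrm bK hbu
  have hirrsF : Irreducible ((m.scaleRoots bK).map (algebraMap K[X] F)) :=
    (hsm.irreducible_iff_irreducible_map_fraction_map (K := F)).mp hirrs
  have hsepF : ((m.scaleRoots bK).map (algebraMap K[X] F)).Separable := by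
    rw [separable_iff_derivative_ne_zero hirrsF]
    rw [separable_iff_derivative_ne_zero hirr] at hsep
    intro h0
    apply hsep
    rw [derivative_map] at h0 ⊢
    have h1 : derivative (m.scaleRoots bK) = 0 := by
      apply Polynomial.map_injective _ hinjF
      rw [h0, Polynomial.map_zero]
    have h2 : derivative m = 0 := by
      ext1 j
      have h3 := congrArg (fun p : K[X][X] => p.coeff j) h1
      simp only [coeff_derivative, coeff_scaleRoots, coeff_zero] at h3 ⊢
      have h4 : (m.coeff (j + 1) * ((j : K[X]) + 1)) * bK ^ (m.natDegree - (j + 1)) = 0 := by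
        rw [← h3]
        ring
      exact (mul_eq_zero.mp h4).resolve_right (pow_ne_zero _ hbK0)
    rw [h2, Polynomial.map_zero]
  refine ⟨b, h, hb0, hhm, ?_, hh, by rw [hh]; exact hirrs, ?_⟩
  · rw [hhdeg, natDegree_scaleRoots]
  · rw [← hh, Polynomial.map_map] at hsepF
    set φ : R[X] →+* F := (algebraMap K[X] F).comp (mapRingHom (algebraMap R K)) with hφ
    have hφinj : Function.Injective φ :=
      hinjF.comp (by rw [coe_mapRingHom]; exact Polynomial.map_injective _ hinj)
    obtain ⟨a, c, hac⟩ := hsepF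
    obtain ⟨d₁, hd₁, A₁, hA₁⟩ := clear_poly φ (nonZeroDivisors R[X]) clear_F a
    obtain ⟨d₂, hd₂, B₁, hB₁⟩ := clear_poly φ (nonZeroDivisors R[X]) clear_F c
    refine ⟨C d₂ * A₁, C d₁ * B₁, d₁ * d₂, mul_ne_zero (nonZeroDivisors.ne_zero hd₁)
      (nonZeroDivisors.ne_zero hd₂), ?_⟩
    apply Polynomial.map_injective _ hφinj
    simp only [Polynomial.map_add, Polynomial.map_mul, map_C, hA₁, hB₁, map_mul, C_mul]
    rw [derivative_map] at hac
    linear_combination -(C (φ d₁) * C (φ d₂)) * hac

end scale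

end HilbertFq

namespace MP7fR

open Polynomial HilbertFq

/-- Avoiding roots over `k(X)`, `k` finite. -/
theorem exists_avoid_ratFunc (k : Type*) [Field k] [Finite k] {ι : Type*} [Finite ι]
    (m : ι → (RatFunc k)[X][X]) (hm : ∀ i, (m i).Monic) (hd : ∀ i, 2 ≤ (m i).natDegree)
    (hirr : ∀ i, Irreducible ((m i).map (algebraMap (RatFunc k)[X] (RatFunc (RatFunc k)))))
    (hsep : ∀ i, ((m i).map (algebraMap (RatFunc k)[X] (RatFunc (RatFunc k)))).Separable)
    (g : (RatFunc k)[X]) (hg : g ≠ 0) :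
    ∃ a : RatFunc k, g.eval a ≠ 0 ∧
      ∀ i, ∀ z : RatFunc k, ((m i).map (evalRingHom a)).eval z ≠ 0 := by
  choose b h hb0 hhm hhd hhs hhirr hhsep using fun i => exists_scaled (R := k[X])
    (F := RatFunc (RatFunc k)) (m i) (hm i) (hd i) (hirr i) (hsep i)
  obtain ⟨e, he, G, hG⟩ := clear_KT (R := k[X]) g
  have hinj : Function.Injective (algebraMap k[X] (RatFunc k)) := IsFractionRing.injective _ _
  have hG0 : G ≠ 0 := by
    rintro rfl
    rw [Polynomial.map_zero] at hG
    have h2 : (C (algebraMap k[X] (RatFunc k) e) : (RatFunc k)[X]) ≠ 0 := by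
      rw [Ne, C_eq_zero, map_eq_zero_iff _ hinj]
      exact nonZeroDivisors.ne_zero he
    exact mul_ne_zero h2 hg hG.symm
  obtain ⟨a, haG, ha⟩ := exists_avoid (K := RatFunc k) h hhm (fun i => by rw [hhd]; exact hd i)
    hhirr hhsep G hG0
  have hGa : (C (algebraMap k[X] (RatFunc k) e) * g).eval (algebraMap k[X] (RatFunc k) a) ≠ 0 := by
    rw [← hG, eval_map_algebraMap, aeval_algebraMap_apply, coe_aeval_eq_eval]
    rw [Ne, map_eq_zero_iff _ hinj]
    exact haG
  rw [eval_mul] at hGa
  refine ⟨algebraMap k[X] (RatFunc k) a, right_ne_zero_of_mul hGa, fun i z hz => ?_⟩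
  -- a root in `K` gives a root in `k[X]`
  have h9 : (evalRingHom (algebraMap k[X] (RatFunc k) a)).comp
      (mapRingHom (algebraMap k[X] (RatFunc k))) =
      (algebraMap k[X] (RatFunc k)).comp (evalRingHom a) := by
    apply Polynomial.ringHom_ext
    · intro x
      simp
    · simp
  have h1 : ((h i).map (evalRingHom a)).map (algebraMap k[X] (RatFunc k)) =
      ((m i).map (evalRingHom (algebraMap k[X] (RatFunc k) a))).scaleRoots
        (algebraMap k[X] (RatFunc k) (b i)) := by
    rw [Polynomial.map_map, ← h9, ← Polynomial.map_map, hhs, map_scaleRoots]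
    · simp only [coe_evalRingHom, eval_C]
    · rw [(hm i).leadingCoeff, map_one]
      exact one_ne_zero
  have h2 : (((h i).map (evalRingHom a)).map (algebraMap k[X] (RatFunc k))).eval
      (algebraMap k[X] (RatFunc k) (b i) * z) = 0 := by
    rw [h1]
    have h3 := scaleRoots_eval_mul ((m i).map (evalRingHom (algebraMap k[X] (RatFunc k) a))) z
      (algebraMap k[X] (RatFunc k) (b i))
    rw [h3, hz, mul_zero]
  have hint : IsIntegral k[X] (algebraMap k[X] (RatFunc k) (b i) * z) := by
    refine ⟨(h i).map (evalRingHom a), (hhm i).map _, ?_⟩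
    rw [← eval_map]
    exact h2
  obtain ⟨y, hy⟩ := IsIntegrallyClosed.isIntegral_iff.mp hint
  apply ha i y
  apply hinj
  rw [map_zero, ← h2, ← hy, eval_map_algebraMap, aeval_algebraMap_apply, coe_aeval_eq_eval]

/-- For a finite field `k` the field `k(X)` is Hilbertian. -/
theorem isHilbertian_ratFunc (k : Type*) [Field k] [Finite k] : IsHilbertian (RatFunc k) := by
  intro f hirr hsep g hg
  let Ω := (f.map (algebraMap (RatFunc k)[X] (RatFunc (RatFunc k)))).SplittingField
  have hgal : IsGalois (RatFunc (RatFunc k)) Ω := IsGalois.of_separable_splitting_field hsep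
  have hsplit : (f.map (algebraMap (RatFunc k)[X] Ω)).Splits := by
    have h1 : ((f.map (algebraMap (RatFunc k)[X] (RatFunc (RatFunc k)))).map
        (algebraMap (RatFunc (RatFunc k)) Ω)).Splits :=
      SplittingField.splits _
    rw [Polynomial.map_map, ← IsScalarTower.algebraMap_eq (RatFunc k)[X] (RatFunc (RatFunc k)) Ω]
      at h1
    exact h1
  obtain ⟨ι, hι, m, hm, hmain⟩ := exists_family_aux (F := RatFunc (RatFunc k)) (Ω := Ω) f hirr
    hsplit
  have hf0 : f ≠ 0 := by
    rintro rfl
    rw [Polynomial.map_zero] at hirr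
    exact not_irreducible_zero hirr
  obtain ⟨a, ha1, ha2⟩ := exists_avoid_ratFunc k m (fun i => (hm i).1) (fun i => (hm i).2.1)
    (fun i => (hm i).2.2.1) (fun i => (hm i).2.2.2) (g * f.leadingCoeff)
    (mul_ne_zero hg (leadingCoeff_ne_zero.mpr hf0))
  rw [eval_mul] at ha1
  exact ⟨a, left_ne_zero_of_mul ha1, hmain a (right_ne_zero_of_mul ha1) ha2⟩

end MP7fR
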