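import Pool.Agent.Lib.HilbertFq.Main
import Pool.Agent.Lib.MP_7f581e_ntL.WH4

/-!
For a finite field `k` the field `k(X)` has the weak Hilbert property `WH`; the weak Hilbert
property implies Hilbertianity.
-/

set_option autoImplicit false

universe u

namespace HilbertFq

open Finset Polynomial

/-- Factorization of monic polynomials over a domain into monic irreducible polynomials. -/
theorem exists_monic_factors {A : Type*} [CommRing A] [IsDomain A] (n : ℕ) :
    ∀ h : A[X], h.Monic → h.natDegree = n →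
      ∃ l : List A[X], (∀ p ∈ l, p.Monic ∧ Irreducible p) ∧ l.prod = h := by
  induction n using Nat.strong_induction_on with
  | _ n ih =>
    intro h hm hd
    by_cases h1 : h = 1
    · exact ⟨[], by simp, by simp [h1]⟩
    by_cases hirr : Irreducible h
    · exact ⟨[h], by simpa using ⟨hm, hirr⟩, by simp⟩
    rw [hm.irreducible_iff_natDegree] at hirr
    push Not at hirr
    obtain ⟨f, g, hf, hg, hfg, hf0, hg0⟩ := hirr h1
    have hdeg : f.natDegree + g.natDegree = n := by
      rw [← hd, ← hfg, hf.natDegree_mul hg]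
    obtain ⟨l, hl, hlp⟩ := ih f.natDegree (by omega) f hf rfl
    obtain ⟨l', hl', hlp'⟩ := ih g.natDegree (by omega) g hg rfl
    refine ⟨l ++ l', fun p hp => ?_, by rw [List.prod_append, hlp, hlp', hfg]⟩
    rcases List.mem_append.mp hp with h2 | h2
    · exact hl p h2
    · exact hl' p h2

end HilbertFq

namespace MP7fR

open Polynomial HilbertFq MP7fL

/-- The weak Hilbert property implies Hilbertianity. -/
theorem isHilbertian_of_wh {K : Type u} [Field K] (hK : WH K) : IsHilbertian K := by
  classical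
  intro f hirr hsep g hg
  let Ω := (f.map (algebraMap K[X] (RatFunc K))).SplittingField
  have hgal : IsGalois (RatFunc K) Ω := IsGalois.of_separable_splitting_field hsep
  have hsplit : (f.map (algebraMap K[X] Ω)).Splits := by
    have h1 : ((f.map (algebraMap K[X] (RatFunc K))).map (algebraMap (RatFunc K) Ω)).Splits :=
      SplittingField.splits _
    rw [Polynomial.map_map, ← IsScalarTower.algebraMap_eq K[X] (RatFunc K) Ω] at h1
    exact h1
  obtain ⟨ι, hι, m, hm, hmain⟩ := exists_family_aux (F := RatFunc K) (Ω := Ω) f hirr hsplit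
  have hfin : Fintype ι := Fintype.ofFinite ι
  have hf0 : f ≠ 0 := by
    rintro rfl
    rw [Polynomial.map_zero] at hirr
    exact not_irreducible_zero hirr
  obtain ⟨a, ha1, ha2⟩ := hK (Finset.univ.image m) (by
    intro h hh
    obtain ⟨i, -, rfl⟩ := Finset.mem_image.mp hh
    refine ⟨(hm i).1, (hm i).2.2.2, fun y hy => ?_⟩
    have h1 : Irreducible (m i) :=
      ((hm i).1.irreducible_iff_irreducible_map_fraction_map (K := RatFunc K)).mpr (hm i).2.2.1
    have h2 : X - C y ∣ m i := dvd_iff_isRoot.mpr hy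
    obtain ⟨c, hc⟩ := h2
    rcases h1.isUnit_or_isUnit hc with h3 | h3
    · exact not_isUnit_X_sub_C y h3
    · have h4 : (m i).natDegree = 1 := by
        have h5 : c.natDegree = 0 := natDegree_eq_zero_of_isUnit h3
        have h6 : c ≠ 0 := h3.ne_zero
        rw [hc, natDegree_mul (X_sub_C_ne_zero y) h6, natDegree_X_sub_C, h5]
      have := (hm i).2.1
      omega) (g * f.leadingCoeff)
    (mul_ne_zero hg (leadingCoeff_ne_zero.mpr hf0))
  rw [eval_mul] at ha1
  exact ⟨a, left_ne_zero_of_mul ha1, hmain a (right_ne_zero_of_mul ha1)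
    fun i z => ha2 (m i) (Finset.mem_image_of_mem m (Finset.mem_univ i)) z⟩

/-- The weak Hilbert property of `k(X)`, `k` finite. -/
theorem wh_ratFunc_finite (k : Type u) [Field k] [Finite k] : WH (RatFunc k) := by
  classical
  intro s hs g hg
  have hfac : ∀ h : (RatFunc k)[X][X], h ∈ s → ∃ l : List (RatFunc k)[X][X],
      (∀ p ∈ l, p.Monic ∧ Irreducible p) ∧ l.prod = h :=
    fun h hh => exists_monic_factors _ h (hs h hh).1 rfl
  choose! l hl hlp using hfac
  let S : Finset (RatFunc k)[X][X] := s.biUnion fun h => (l h).toFinset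
  have hS : ∀ p ∈ S, ∃ h ∈ s, p ∈ l h := by
    intro p hp
    obtain ⟨h, hh, hp⟩ := Finset.mem_biUnion.mp hp
    exact ⟨h, hh, List.mem_toFinset.mp hp⟩
  obtain ⟨a, ha1, ha2⟩ := exists_avoid_ratFunc k (ι := S) (fun p => p.1)
    (fun p => by
      obtain ⟨h, hh, hp⟩ := hS p.1 p.2
      exact (hl h hh p.1 hp).1)
    (fun p => by
      obtain ⟨h, hh, hp⟩ := hS p.1 p.2
      obtain ⟨hpm, hpi⟩ := hl h hh p.1 hp
      by_contra hlt
      have h1 : p.1.natDegree = 1 := by
        have h2 : p.1.natDegree ≠ 0 := by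
          intro h3
          have h4 : p.1 = 1 := hpm.natDegree_eq_zero.mp h3
          rw [h4] at hpi
          exact not_irreducible_one hpi
        omega
      have h2 : p.1 = X - C (-(p.1.coeff 0)) := by
        have h3 := hpm.eq_X_add_C h1
        rw [h3]
        simp
      have h3 : p.1 ∣ h := by
        rw [← hlp h hh]
        exact List.dvd_prod hp
      rw [h2, dvd_iff_isRoot] at h3
      exact (hs h hh).2.2 _ h3)
    (fun p => by
      obtain ⟨h, hh, hp⟩ := hS p.1 p.2
      obtain ⟨hpm, hpi⟩ := hl h hh p.1 hp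
      exact (hpm.irreducible_iff_irreducible_map_fraction_map (K := RatFunc (RatFunc k))).mp hpi)
    (fun p => by
      obtain ⟨h, hh, hp⟩ := hS p.1 p.2
      have h3 : p.1 ∣ h := by
        rw [← hlp h hh]
        exact List.dvd_prod hp
      exact (hs h hh).2.1.of_dvd (Polynomial.map_dvd _ h3))
    g hg
  refine ⟨a, ha1, fun h hh z hz => ?_⟩
  rw [← hlp h hh, Polynomial.map_list_prod, eval_list_prod] at hz
  rw [List.prod_eq_zero_iff] at hz
  obtain ⟨q, hq, hq0⟩ := List.mem_map.mp hz
  obtain ⟨p, hp, rfl⟩ := List.mem_map.mp hq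
  exact ha2 ⟨p, Finset.mem_biUnion.mpr ⟨h, hh, List.mem_toFinset.mpr hp⟩⟩ z hq0

end MP7fR
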